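import Pool.Agent.R734.CK.Final
import Pool.Agent.H818R2.Ram.Erdos

/-!
# Every colouring is determined by `2 log₂ n` comparisons; extremal colourings
-/

set_option autoImplicit false

namespace Pool.Agent.R734.CK

open Finset

/-- every colouring of the pairs of `n ≤ 2 ^ m` vertices is determined by `2 m` comparisons -/
theorem all_determined {n m : ℕ} (G : SimpleGraph (Fin n)) (hn : n ≤ 2 ^ m) :
    DeterminedBy G (2 * m) := by
  classical
  -- the comparisons `0, …, m - 1` read the bits of `x`, the others those of `y`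
  refine ⟨fun l y => if l.val < m then 0 else (if y.val.testBit (l.val - m) then 1 else 0),
    fun l x => if l.val < m then (if x.val.testBit l.val then 1 else 0) else 1, ?_⟩
  intro x y x' y' _ _ h
  have hx : x = x' := by
    apply Fin.ext
    apply Nat.eq_of_testBit_eq
    intro i
    rcases Nat.lt_or_ge i m with hi | hi
    · have h1 := h ⟨i, by omega⟩
      simp only [hi, if_true] at h1
      by_cases c1 : x.val.testBit i <;> by_cases c2 : x'.val.testBit i <;> simp_all
    · rw [Nat.testBit_lt_two_pow (lt_of_lt_of_le x.isLt (hn.trans (Nat.pow_le_pow_right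
        (by norm_num) hi))), Nat.testBit_lt_two_pow (lt_of_lt_of_le x'.isLt (hn.trans
        (Nat.pow_le_pow_right (by norm_num) hi)))]
  have hy : y = y' := by
    apply Fin.ext
    apply Nat.eq_of_testBit_eq
    intro i
    rcases Nat.lt_or_ge i m with hi | hi
    · have h1 := h ⟨m + i, by omega⟩
      have hlt : ¬ (m + i < m) := by omega
      simp only [hlt, if_false, Nat.add_sub_cancel_left] at h1
      by_cases c1 : y.val.testBit i <;> by_cases c2 : y'.val.testBit i <;> simp_all
    · rw [Nat.testBit_lt_two_pow (lt_of_lt_of_le y.isLt (hn.trans (Nat.pow_le_pow_right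
        (by norm_num) hi))), Nat.testBit_lt_two_pow (lt_of_lt_of_le y'.isLt (hn.trans
        (Nat.pow_le_pow_right (by norm_num) hi)))]
  rw [hx, hy]

/-- Many vertices force many comparisons. -/
theorem many_comparisons (θ : ℝ) (hθ : 0 < θ) (hθ1 : θ ≤ 1) (k d n : ℕ) (hd1 : 1 ≤ d)
    (G : SimpleGraph (Fin n)) (hG : NoMono G k) (hd : DeterminedBy G d)
    (hn : Real.exp (θ * k) ≤ n) : θ / (64 * Real.log (2 / θ)) * k ≤ d := by
  have hlog2 : 0.6931 < Real.log 2 ∧ Real.log 2 < 0.6932 := by
    have h1 := Real.log_two_gt_d9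
    have h2 := Real.log_two_lt_d9
    constructor <;> linarith
  set L := Real.log (2 / θ) with hL
  have hL2 : Real.log 2 ≤ L := by
    apply Real.log_le_log (by norm_num)
    rw [le_div_iff₀ hθ]
    linarith
  have hL0 : 0 < L := by linarith [hlog2.1]
  rcases Nat.lt_or_ge k d with hkd | hdk
  · have h1 : θ / (64 * L) ≤ 1 := by
      rw [div_le_one (by positivity)]
      linarith [hlog2.1]
    have h2 : (k : ℝ) ≤ d := by exact_mod_cast hkd.le
    calc θ / (64 * L) * k ≤ 1 * k := mul_le_mul_of_nonneg_right h1 (Nat.cast_nonneg _)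
      _ ≤ d := by linarith
  by_contra hcon
  push Not at hcon
  have hd' : (1 : ℝ) ≤ d := by exact_mod_cast hd1
  have hd0 : (0 : ℝ) < d := by linarith
  have hdk' : (d : ℝ) ≤ k := by exact_mod_cast hdk
  have hk0 : (0 : ℝ) < k := by linarith
  have h1 := upper_log hd1 hdk G hG hd
  have hn0 : (0 : ℝ) < n := lt_of_lt_of_le (Real.exp_pos _) hn
  have h2 : θ * k ≤ Real.log n := (Real.le_log_iff_exp_le hn0).2 hn
  -- put `x = d / k`
  set x : ℝ := d / k with hx
  have hx0 : 0 < x := by positivity
  have hxk : x * k = d := div_mul_cancel₀ _ hk0.ne'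
  set c : ℝ := θ / (64 * L) with hc
  have hc0 : 0 < c := by positivity
  have hxc : x < c := by
    rw [hx, div_lt_iff₀ hk0]
    exact hcon
  have hlogx : Real.log (2 * k / d) = Real.log (2 / x) := by
    congr 1
    rw [hx]
    field_simp
  rw [hlogx] at h1
  have h3 : θ ≤ 8 * x * Real.log (2 / x) := by
    have h4 : θ * k ≤ (8 * x * Real.log (2 / x)) * k := by
      calc θ * k ≤ 8 * d * Real.log (2 / x) := h2.trans h1
        _ = (8 * x * Real.log (2 / x)) * k := by rw [← hxk]; ring
    exact le_of_mul_le_mul_right h4 hk0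
  -- `x log (2 / x) ≤ x log (2 / c) + (c - x)`
  have h5 : x * Real.log (2 / x) ≤ x * Real.log (2 / c) + (c - x) := by
    have e1 : Real.log (2 / x) = Real.log (2 / c) + Real.log (c / x) := by
      rw [← Real.log_mul (by positivity) (by positivity)]
      congr 1
      field_simp
    have e2 : Real.log (c / x) ≤ c / x - 1 := Real.log_le_sub_one_of_pos (by positivity)
    rw [e1, mul_add]
    have e3 : x * Real.log (c / x) ≤ c - x := by
      calc x * Real.log (c / x) ≤ x * (c / x - 1) := mul_le_mul_of_nonneg_left e2 hx0.le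
        _ = c - x := by
            field_simp
    linarith
  have h6 : Real.log (2 / c) ≤ 8 * L - 1 := by
    have e1 : (2 : ℝ) / c = 64 * L * (2 / θ) := by
      rw [hc]
      field_simp
    rw [e1, Real.log_mul (by positivity) (by positivity), Real.log_mul (by norm_num) hL0.ne']
    have e2 : Real.log L ≤ L - 1 := Real.log_le_sub_one_of_pos hL0
    have e3 : Real.log 64 = 6 * Real.log 2 := by
      rw [show (64 : ℝ) = 2 ^ 6 by norm_num, Real.log_pow]
      norm_num
    rw [e3, ← hL]
    linarith
  have h7 : Real.log (2 / c) ≥ 1 := by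
    -- `2 / c ≥ 64 * L * 2`
    have e1 : (4 : ℝ) ≤ 2 / c := by
      rw [le_div_iff₀ hc0, hc, mul_div_assoc', div_le_iff₀ (by positivity)]
      nlinarith [hlog2.1]
    have e2 : Real.log 4 ≤ Real.log (2 / c) := Real.log_le_log (by norm_num) e1
    have e3 : Real.log 4 = 2 * Real.log 2 := by
      rw [show (4 : ℝ) = 2 ^ 2 by norm_num, Real.log_pow]
      norm_num
    linarith [hlog2.1]
  have h8 : x * Real.log (2 / c) + (c - x) ≤ c * Real.log (2 / c) := by
    nlinarith
  have h9 : c * Real.log (2 / c) ≤ c * (8 * L - 1) := mul_le_mul_of_nonneg_left h6 hc0.le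
  have h10 : c * (8 * L) = θ / 8 := by
    rw [hc]
    field_simp
    ring
  have h11 : 8 * x * Real.log (2 / x) < θ := by
    calc 8 * x * Real.log (2 / x) = 8 * (x * Real.log (2 / x)) := by ring
      _ ≤ 8 * (c * (8 * L - 1)) := by linarith
      _ = 8 * (c * (8 * L)) - 8 * c := by ring
      _ = θ - 8 * c := by rw [h10]; ring
      _ < θ := by linarith
  linarith

/-- The diagonal Ramsey number `R(k,k)`. -/
noncomputable def ramsey (k : ℕ) : ℕ :=
  sInf {n : ℕ | ∀ G : SimpleGraph (Fin n), ¬ NoMono G k}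

theorem ramsey_eq (k : ℕ) : ramsey k = Pool.Agent.H818R2.Ram.R k k := by
  unfold ramsey Pool.Agent.H818R2.Ram.R Pool.Agent.H818R2.Ram.Arrows
  congr 1
  ext n
  simp only [Set.mem_ofPred_eq]
  apply forall_congr'
  intro G
  unfold NoMono SimpleGraph.CliqueFree
  constructor
  · intro h
    by_contra hcon
    push Not at hcon
    exact h hcon
  · rintro (⟨s, hs⟩ | ⟨s, hs⟩) ⟨h1, h2⟩
    · exact h1 s hs
    · exact h2 s hs

theorem sq_le_two_pow (k : ℕ) (hk : 4 ≤ k) : k ^ 2 ≤ 2 ^ k := by
  induction k, hk using Nat.le_induction with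
  | base => norm_num
  | succ j hj ihj =>
    have e : 2 ^ (j + 1) = 2 ^ j * 2 := pow_succ 2 j
    rw [e]
    nlinarith

/-- The extremal colourings need between `k / 600` and `4 k` comparisons. -/
theorem extremal {k : ℕ} (hk : 4 ≤ k) {n : ℕ} (G : SimpleGraph (Fin n)) (hn : n + 1 = ramsey k)
    (hG : NoMono G k) : DeterminedBy G (4 * k) ∧ ∀ d : ℕ, DeterminedBy G d → k ≤ 600 * d := by
  rw [ramsey_eq] at hn
  constructor
  · have h4 : Pool.Agent.H818R2.Ram.R k k ≤ 4 ^ k := by
      obtain ⟨a, rfl⟩ : ∃ a, k = a + 1 := ⟨k - 1, by omega⟩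
      calc Pool.Agent.H818R2.Ram.R (a + 1) (a + 1) ≤ (a + a).choose a :=
            Pool.Agent.H818R2.Ram.R_succ_le_choose a a
        _ ≤ 2 ^ (a + a) := Nat.choose_le_two_pow _ _
        _ = 4 ^ a := by rw [← two_mul, pow_mul]; norm_num
        _ ≤ 4 ^ (a + 1) := Nat.pow_le_pow_right (by norm_num) (by omega)
    have h5 : n ≤ 2 ^ (2 * k) := by
      rw [pow_mul]
      norm_num
      omega
    have := all_determined G h5
    rwa [← mul_assoc] at this
  · intro d hd
    have hE := Pool.Agent.H818R2.Ram.erdos_lower (k := k) (by omega)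
    rw [← hn] at hE
    have h2k : k ^ 2 ≤ 2 ^ k := sq_le_two_pow k hk
    have hkn : k ≤ n := by
      by_contra hcon
      push Not at hcon
      have : (n + 1) ^ 2 ≤ k ^ 2 := Nat.pow_le_pow_left (by omega) 2
      omega
    rcases Nat.eq_zero_or_pos d with rfl | hd1
    · exfalso
      obtain ⟨f, g, hfg⟩ := hd
      have hcard : k ≤ (univ : Finset (Fin n)).card := by
        rw [card_univ, Fintype.card_fin]
        exact hkn
      obtain ⟨S, -, hS⟩ := exists_subset_card_eq hcard
      have h01 : (⟨0, by omega⟩ : Fin n) < ⟨1, by omega⟩ := by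
        rw [Fin.lt_def]
        norm_num
      have hall : ∀ x y : Fin n, x < y →
          (G.Adj x y ↔ G.Adj (⟨0, by omega⟩ : Fin n) ⟨1, by omega⟩) := by
        intro x y hxy
        exact hfg x y _ _ hxy h01 (fun l => l.elim0)
      by_cases hc : G.Adj (⟨0, by omega⟩ : Fin n) ⟨1, by omega⟩
      · refine hG.1 S ⟨?_, hS⟩
        intro x _ y _ hxy
        rcases lt_or_gt_of_ne hxy with h | h
        · exact (hall x y h).2 hc
        · exact ((hall y x h).2 hc).symm
      · refine hG.2 S ⟨?_, hS⟩
        intro x _ y _ hxy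
        rw [SimpleGraph.compl_adj]
        refine ⟨hxy, ?_⟩
        intro hadj
        rcases lt_or_gt_of_ne hxy with h | h
        · exact hc ((hall x y h).1 hadj)
        · exact hc ((hall y x h).1 hadj.symm)
    · have hn1 : 4 ≤ n := by omega
      have hn0 : (0 : ℝ) < n := by
        have : 0 < n := by omega
        exact_mod_cast this
      have hk4 : (4 : ℝ) ≤ k := by exact_mod_cast hk
      have h3 := many_comparisons (1 / 4) (by norm_num) (by norm_num) k d n hd1 G hG hd (by
        rw [← Real.le_log_iff_exp_le hn0]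
        have hE' : (2 : ℝ) ^ k ≤ (5 / 4 * n) ^ 2 := by
          have h3 : (2 : ℝ) ^ k < ((n : ℝ) + 1) ^ 2 := by exact_mod_cast hE
          have h4 : (4 : ℝ) ≤ n := by exact_mod_cast hn1
          have h5 : (n : ℝ) + 1 ≤ 5 / 4 * n := by linarith
          exact h3.le.trans (pow_le_pow_left₀ (by positivity) h5 2)
        have h5 := Real.log_le_log (by positivity) hE'
        rw [Real.log_pow, Real.log_pow, Real.log_mul (by norm_num) hn0.ne'] at h5
        push_cast at h5
        have h6 := Real.log_two_gt_d9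
        have h8 : Real.log (5 / 4) ≤ 5 / 4 - 1 := Real.log_le_sub_one_of_pos (by norm_num)
        nlinarith)
      have e1 : Real.log (2 / (1 / 4)) = 3 * Real.log 2 := by
        rw [show (2 : ℝ) / (1 / 4) = 2 ^ 3 by norm_num, Real.log_pow]
        norm_num
      rw [e1] at h3
      have h7 := Real.log_two_lt_d9
      have h6 := Real.log_two_gt_d9
      have h9 : (1 : ℝ) / 600 ≤ 1 / 4 / (64 * (3 * Real.log 2)) := by
        rw [div_div, div_le_div_iff₀ (by norm_num) (by positivity)]
        linarith
      have h10 : (1 : ℝ) / 600 * k ≤ d := le_trans (mul_le_mul_of_nonneg_right h9 (by positivity)) h3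
      have h11 : (k : ℝ) ≤ 600 * d := by linarith
      exact_mod_cast h11

end Pool.Agent.R734.CK
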