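import Pool.Agent.R734.CK.Lower

/-!
# The two bounds in logarithmic form
-/

set_option autoImplicit false

namespace Pool.Agent.R734.CK

open Finset

theorem exists_T (d k : ℕ) (hd : 1 ≤ d) (hk : d ≤ k) : ∃ T : ℕ, k ≤ d * 2 ^ T ∧ d * 2 ^ T ≤ 2 * k := by
  have hex : ∃ T : ℕ, k ≤ d * 2 ^ T := by
    refine ⟨k, ?_⟩
    calc k ≤ 2 ^ k := Nat.lt_two_pow_self.le
      _ ≤ d * 2 ^ k := Nat.le_mul_of_pos_left _ hd
  classical
  refine ⟨Nat.find hex, Nat.find_spec hex, ?_⟩
  rcases Nat.eq_zero_or_pos (Nat.find hex) with h | h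
  · rw [h]
    omega
  · have h1 := Nat.find_min hex (m := Nat.find hex - 1) (by omega)
    push Not at h1
    obtain ⟨m, hm⟩ : ∃ m, Nat.find hex = m + 1 := ⟨Nat.find hex - 1, by omega⟩
    rw [hm] at h1 ⊢
    rw [Nat.add_sub_cancel] at h1
    have e : d * 2 ^ (m + 1) = 2 * (d * 2 ^ m) := by ring
    rw [e]
    omega

/-- **Upper bound**, logarithmic form. -/
theorem upper_log {n d k : ℕ} (hd1 : 1 ≤ d) (hdk : d ≤ k) (G : SimpleGraph (Fin n))
    (hG : NoMono G k) (hd : DeterminedBy G d) :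
    Real.log n ≤ 8 * d * Real.log (2 * k / d) := by
  obtain ⟨T, hT1, hT2⟩ := exists_T d k hd1 hdk
  have hn := upper G hG hd hT1
  have hd' : (1 : ℝ) ≤ d := by exact_mod_cast hd1
  have hd0 : (0 : ℝ) < d := by linarith
  have hdk' : (d : ℝ) ≤ k := by exact_mod_cast hdk
  set L := Real.log (2 * k / d) with hL
  have hT2' : (2 : ℝ) ^ T ≤ 2 * k / d := by
    rw [le_div_iff₀ hd0, mul_comm]
    exact_mod_cast hT2
  have hTL : T * Real.log 2 ≤ L := by
    rw [← Real.log_pow]
    exact Real.log_le_log (by positivity) hT2'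
  have hlog2 : 0.6931 < Real.log 2 := by
    have := Real.log_two_gt_d9
    linarith
  have hL2 : Real.log 2 ≤ L := by
    apply Real.log_le_log (by norm_num)
    rw [le_div_iff₀ hd0]
    linarith
  have hT0 : (0 : ℝ) ≤ T := Nat.cast_nonneg _
  rcases Nat.eq_zero_or_pos n with rfl | hn0
  · simp only [Nat.cast_zero, Real.log_zero]
    have : 0 ≤ L := by linarith
    positivity
  have hn0' : (0 : ℝ) < n := by exact_mod_cast hn0
  -- the binomial coefficient
  have hch : (((d + d * 2 ^ T).choose d : ℕ) : ℝ) ≤ (Real.exp 1 * (1 + 2 ^ T)) ^ d := by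
    have h1 : (((d + d * 2 ^ T).choose d : ℕ) : ℝ) ≤
        (((d + d * 2 ^ T : ℕ) : ℝ)) ^ d / (d.factorial : ℝ) := Nat.choose_le_pow_div d _
    have h2 := Real.pow_div_factorial_le_exp (d : ℝ) hd0.le d
    have h3 : (0 : ℝ) < d.factorial := by exact_mod_cast d.factorial_pos
    have h4 : (((d + d * 2 ^ T : ℕ) : ℝ)) = d * (1 + 2 ^ T) := by
      push_cast
      ring
    rw [h4, mul_pow] at h1
    calc (((d + d * 2 ^ T).choose d : ℕ) : ℝ)
        ≤ (d : ℝ) ^ d * (1 + 2 ^ T) ^ d / (d.factorial : ℝ) := h1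
      _ = ((d : ℝ) ^ d / (d.factorial : ℝ)) * (1 + 2 ^ T) ^ d := by ring
      _ ≤ Real.exp d * (1 + 2 ^ T) ^ d := mul_le_mul_of_nonneg_right h2 (by positivity)
      _ = (Real.exp 1 * (1 + 2 ^ T)) ^ d := by
          rw [mul_pow, ← Real.exp_nat_mul, mul_one]
  have hlogch : Real.log (((d + d * 2 ^ T).choose d : ℕ) : ℝ) ≤ d * (1 + Real.log 2 + L) := by
    have hpos : (0 : ℝ) < (((d + d * 2 ^ T).choose d : ℕ) : ℝ) := by
      exact_mod_cast Nat.choose_pos (by omega)
    refine (Real.log_le_log hpos hch).trans ?_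
    rw [Real.log_pow, Real.log_mul (Real.exp_pos 1).ne' (by positivity), Real.log_exp]
    have h1 : Real.log (1 + 2 ^ T) ≤ Real.log 2 + L := by
      have h2 : (1 : ℝ) + 2 ^ T ≤ 2 * 2 ^ T := by
        have : (1 : ℝ) ≤ 2 ^ T := one_le_pow₀ (by norm_num)
        linarith
      refine (Real.log_le_log (by positivity) h2).trans ?_
      rw [Real.log_mul (by norm_num) (by positivity), Real.log_pow]
      linarith
    have h3 : (1 : ℝ) + Real.log (1 + 2 ^ T) ≤ 1 + Real.log 2 + L := by linarith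
    exact mul_le_mul_of_nonneg_left h3 hd0.le
  have hnle : (n : ℝ) ≤ ((2 : ℝ) ^ (d + 1)) ^ (2 * T) * (((d + d * 2 ^ T).choose d : ℕ) : ℝ) := by
    exact_mod_cast hn.le
  have hpos : (0 : ℝ) < (((d + d * 2 ^ T).choose d : ℕ) : ℝ) := by
    exact_mod_cast Nat.choose_pos (by omega)
  have h1 : Real.log n ≤ (2 * T) * ((d + 1) * Real.log 2) +
      Real.log (((d + d * 2 ^ T).choose d : ℕ) : ℝ) := by
    refine (Real.log_le_log hn0' hnle).trans ?_
    rw [Real.log_mul (by positivity) hpos.ne', Real.log_pow, Real.log_pow]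
    push_cast
    exact le_rfl
  have h2 : (2 * T : ℝ) * ((d + 1) * Real.log 2) ≤ 4 * d * L := by
    have : (d : ℝ) + 1 ≤ 2 * d := by linarith
    calc (2 * T : ℝ) * ((d + 1) * Real.log 2) = 2 * (d + 1) * (T * Real.log 2) := by ring
      _ ≤ 2 * (d + 1) * L := by gcongr
      _ ≤ 2 * (2 * d) * L := by
          have : 0 ≤ L := by linarith
          gcongr
      _ = 4 * d * L := by ring
  have h3 : (1 : ℝ) + Real.log 2 + L ≤ 4 * L := by
    have : Real.log 2 < 0.6932 := by
      have := Real.log_two_lt_d9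
      linarith
    linarith
  have h4 : (d : ℝ) * (1 + Real.log 2 + L) ≤ d * (4 * L) := mul_le_mul_of_nonneg_left h3 hd0.le
  calc Real.log n ≤ 4 * d * L + d * (4 * L) := by linarith
    _ = 8 * d * L := by ring

/-- few vertices -/
theorem trivial_colouring (k d : ℕ) (hk : 1 ≤ k) :
    NoMono (⊥ : SimpleGraph (Fin (k - 1))) k ∧ DeterminedBy (⊥ : SimpleGraph (Fin (k - 1))) d := by
  have hfree : ∀ G : SimpleGraph (Fin (k - 1)), G.CliqueFree k := by
    intro G S hS
    have h1 := card_le_univ S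
    rw [hS.card_eq, Fintype.card_fin] at h1
    omega
  refine ⟨⟨hfree _, hfree _⟩, fun _ _ => 0, fun _ _ => 0, ?_⟩
  intro x y x' y' _ _ _
  simp

/-- **Lower bound**, logarithmic form. -/
theorem lower_log (d k : ℕ) (hd1 : 1 ≤ d) (hdk : 64 * d ≤ k) :
    ∃ (n : ℕ) (G : SimpleGraph (Fin n)), NoMono G k ∧ DeterminedBy G d ∧
      (d / 16 : ℝ) * Real.log (k / d) ≤ Real.log n := by
  have hd' : (1 : ℝ) ≤ d := by exact_mod_cast hd1
  have hd0 : (0 : ℝ) < d := by linarith
  have hdk' : (64 : ℝ) * d ≤ k := by exact_mod_cast hdk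
  have hk64 : (64 : ℝ) ≤ k := by nlinarith
  have hk0 : (0 : ℝ) < k := by linarith
  have hx64 : (64 : ℝ) ≤ k / d := by rwa [le_div_iff₀ hd0]
  have hlog2 : 0.6931 < Real.log 2 ∧ Real.log 2 < 0.6932 := by
    have h1 := Real.log_two_gt_d9
    have h2 := Real.log_two_lt_d9
    constructor <;> linarith
  set y := Real.log (k / d) with hy
  have hy4 : 4.158 ≤ y := by
    have h1 : Real.log 64 ≤ y := Real.log_le_log (by norm_num) hx64
    have h2 : Real.log 64 = 6 * Real.log 2 := by
      rw [show (64 : ℝ) = 2 ^ 6 by norm_num, Real.log_pow]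
      norm_num
    linarith [hlog2.1]
  rcases Nat.lt_or_ge 8 d with hd8 | hd8
  · set p := d / 2 with hp
    set t := k / 2 with ht
    have hp1 : 4 ≤ p := by omega
    have hp2 : 2 * p ≤ d := by omega
    have hp3 : 9 * p ≥ 4 * d := by omega
    have ht1 : 2 * t ≤ k := by omega
    have ht2 : k ≤ 2 * (t + 1) := by omega
    have hp0 : (0 : ℝ) < p := by
      have : 0 < p := by omega
      exact_mod_cast this
    set r : ℝ := 4 * p * Real.exp 1 / (t + 1) with hr
    have ht0 : (0 : ℝ) < (t : ℝ) + 1 := by positivity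
    have hr0 : 0 < r := by positivity
    set X : ℝ := Real.sqrt ((1 / r) ^ p) with hX
    have hXsq : X ^ 2 = (1 / r) ^ p := Real.sq_sqrt (by positivity)
    set N := ⌊X⌋₊ with hN
    have hX0 : 0 < X := Real.sqrt_pos.2 (by positivity)
    have hNX : (N : ℝ) ≤ X := Nat.floor_le hX0.le
    have hNsq : (N : ℝ) ^ 2 * r ^ p ≤ 1 := by
      have h1 : (N : ℝ) ^ 2 ≤ (1 / r) ^ p := by
        rw [← hXsq]
        exact pow_le_pow_left₀ (Nat.cast_nonneg _) hNX 2
      calc (N : ℝ) ^ 2 * r ^ p ≤ (1 / r) ^ p * r ^ p :=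
            mul_le_mul_of_nonneg_right h1 (by positivity)
        _ = 1 := by
            rw [← mul_pow, one_div, inv_mul_cancel₀ hr0.ne', one_pow]
    obtain ⟨G, hG, hGd⟩ := lower (p := p) (t := t) (N := N) (by omega) (by omega) r (by
      rw [hr, div_mul_cancel₀ _ ht0.ne']) hr0.le hNsq
    refine ⟨N, G, hG.mono ht1, hGd.mono hp2, ?_⟩
    -- the size of `X`
    have hrle : (k / d : ℝ) / (4 * Real.exp 1) ≤ 1 / r := by
      rw [hr, one_div_div, div_div]
      rw [div_le_div_iff₀ (by positivity) (by positivity)]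
      have e1 : (k : ℝ) ≤ 2 * (t + 1) := by exact_mod_cast ht2
      have e2 : (2 : ℝ) * p ≤ d := by exact_mod_cast hp2
      have e3 : (0 : ℝ) < Real.exp 1 := Real.exp_pos 1
      calc (k : ℝ) * (4 * p * Real.exp 1) = (k * (2 * p)) * (2 * Real.exp 1) := by ring
        _ ≤ ((2 * (t + 1)) * d) * (2 * Real.exp 1) := by gcongr
        _ = (t + 1) * (d * (4 * Real.exp 1)) := by ring
    have hlogr : 2 / 5 * y ≤ Real.log (1 / r) := by
      have h1 : Real.log ((k / d : ℝ) / (4 * Real.exp 1)) ≤ Real.log (1 / r) :=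
        Real.log_le_log (by positivity) hrle
      rw [Real.log_div (by positivity) (by positivity),
        Real.log_mul (by norm_num) (Real.exp_pos 1).ne', Real.log_exp] at h1
      have h2 : Real.log 4 = 2 * Real.log 2 := by
        rw [show (4 : ℝ) = 2 ^ 2 by norm_num, Real.log_pow]
        norm_num
      rw [h2, ← hy] at h1
      linarith [hlog2.2]
    have hlogX : Real.log X = (p / 2) * Real.log (1 / r) := by
      rw [hX, Real.log_sqrt (by positivity), Real.log_pow]
      ring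
    have hpd : (4 / 9 : ℝ) * d ≤ p := by
      have : (4 : ℝ) * d ≤ 9 * p := by exact_mod_cast hp3
      linarith
    have hlogX2 : (4 / 45 : ℝ) * d * y ≤ Real.log X := by
      rw [hlogX]
      have h0 : 0 ≤ 2 / 5 * y := by linarith
      calc (4 / 45 : ℝ) * d * y = ((4 / 9 * d) / 2) * (2 / 5 * y) := by ring
        _ ≤ (p / 2) * (2 / 5 * y) := by gcongr
        _ ≤ (p / 2) * Real.log (1 / r) := by gcongr
    have hdy : (37 : ℝ) ≤ d * y := by
      have h9 : (9 : ℝ) ≤ d := by exact_mod_cast hd8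
      nlinarith
    have hX1 : 1 ≤ X := by
      have : 0 < Real.log X := by nlinarith
      exact (Real.log_pos_iff hX0.le).1 this |>.le
    have hNX2 : X / 2 ≤ N := by
      have h1 : X < N + 1 := Nat.lt_floor_add_one X
      have h2 : (1 : ℝ) ≤ N := by
        have : 1 ≤ N := Nat.le_floor (by simpa using hX1)
        exact_mod_cast this
      linarith
    have hfin : Real.log X - Real.log 2 ≤ Real.log N := by
      rw [← Real.log_div hX0.ne' (by norm_num)]
      exact Real.log_le_log (by positivity) hNX2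
    have : (d / 16 : ℝ) * y = (1 / 16) * (d * y) := by ring
    rw [this]
    have h45 : (4 / 45 : ℝ) * d * y = (4 / 45) * (d * y) := by ring
    rw [h45] at hlogX2
    linarith [hlog2.2]
  · obtain ⟨h1, h2⟩ := trivial_colouring k d (by omega)
    refine ⟨k - 1, ⊥, h1, h2, ?_⟩
    have hk1 : ((k - 1 : ℕ) : ℝ) = k - 1 := by
      rw [Nat.cast_sub (by omega)]
      simp
    rw [hk1]
    have h3 : Real.log k ≤ 2 * Real.log (k - 1) := by
      have e : 2 * Real.log ((k : ℝ) - 1) = Real.log (((k : ℝ) - 1) ^ 2) := by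
        rw [Real.log_pow]
        norm_num
      rw [e]
      apply Real.log_le_log hk0
      nlinarith
    have h4 : y ≤ Real.log k := by
      apply Real.log_le_log (by positivity)
      exact div_le_self hk0.le hd'
    have h5 : (d : ℝ) ≤ 8 := by exact_mod_cast hd8
    have h6 : 0 ≤ y := by linarith
    nlinarith

/-- the growth rate of the numbers for `⌊ε k⌋` comparisons -/
theorem rate_upper (ε : ℝ) (hε : 0 < ε) (hε1 : ε ≤ 1) (k : ℕ) (hk : 1 ≤ ε * k) (n : ℕ)
    (G : SimpleGraph (Fin n)) (hG : NoMono G k) (hd : DeterminedBy G ⌊ε * k⌋₊) :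
    Real.log n / k ≤ 16 * ε * Real.log (2 / ε) := by
  set d := ⌊ε * k⌋₊ with hdd
  have hk0 : (0 : ℝ) < k := by
    by_contra hcon
    push Not at hcon
    have : ε * k ≤ 0 := mul_nonpos_of_nonneg_of_nonpos hε.le hcon
    linarith
  have hd1 : 1 ≤ d := Nat.le_floor (by simpa using hk)
  have hdle : (d : ℝ) ≤ ε * k := Nat.floor_le (by positivity)
  have hd2 : ε * k < d + 1 := Nat.lt_floor_add_one _
  have hd1' : (1 : ℝ) ≤ d := by exact_mod_cast hd1
  have hdk : d ≤ k := by
    have : (d : ℝ) ≤ k := by nlinarith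
    exact_mod_cast this
  have hd0 : (0 : ℝ) < d := by linarith
  have h1 := upper_log hd1 hdk G hG hd
  have h2 : Real.log (2 * k / d) ≤ 2 * Real.log (2 / ε) := by
    have e : 2 * Real.log (2 / ε) = Real.log ((2 / ε) ^ 2) := by
      rw [Real.log_pow]
      norm_num
    rw [e]
    apply Real.log_le_log (by positivity)
    have h3 : ε * k ≤ 2 * d := by linarith
    rw [div_pow, div_le_div_iff₀ hd0 (by positivity)]
    nlinarith [mul_pos hε hk0]
  have h4 : 0 ≤ Real.log (2 / ε) := by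
    apply Real.log_nonneg
    rw [le_div_iff₀ hε]
    linarith
  rw [div_le_iff₀ hk0]
  calc Real.log n ≤ 8 * d * Real.log (2 * k / d) := h1
    _ ≤ 8 * d * (2 * Real.log (2 / ε)) := by gcongr
    _ ≤ 8 * (ε * k) * (2 * Real.log (2 / ε)) := by gcongr
    _ = 16 * ε * Real.log (2 / ε) * k := by ring

theorem rate_lower (ε : ℝ) (hε : 0 < ε) (hε1 : ε ≤ 1 / 64) (k : ℕ) (hk : 1 ≤ ε * k) :
    ∃ (n : ℕ) (G : SimpleGraph (Fin n)), NoMono G k ∧ DeterminedBy G ⌊ε * k⌋₊ ∧
      ε / 32 * Real.log (1 / ε) ≤ Real.log n / k := by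
  set d := ⌊ε * k⌋₊ with hdd
  have hk0 : (0 : ℝ) < k := by
    by_contra hcon
    push Not at hcon
    have : ε * k ≤ 0 := mul_nonpos_of_nonneg_of_nonpos hε.le hcon
    linarith
  have hd1 : 1 ≤ d := Nat.le_floor (by simpa using hk)
  have hdle : (d : ℝ) ≤ ε * k := Nat.floor_le (by positivity)
  have hd2 : ε * k < d + 1 := Nat.lt_floor_add_one _
  have hd1' : (1 : ℝ) ≤ d := by exact_mod_cast hd1
  have hd0 : (0 : ℝ) < d := by linarith
  have hdk : 64 * d ≤ k := by
    have : (64 : ℝ) * d ≤ k := by nlinarith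
    exact_mod_cast this
  obtain ⟨n, G, h1, h2, h3⟩ := lower_log d k hd1 hdk
  refine ⟨n, G, h1, h2, ?_⟩
  rw [le_div_iff₀ hk0]
  have h4 : Real.log (1 / ε) ≤ Real.log (k / d) := by
    apply Real.log_le_log (by positivity)
    rw [div_le_div_iff₀ hε hd0]
    linarith
  have h5 : 0 ≤ Real.log (1 / ε) := by
    apply Real.log_nonneg
    rw [le_div_iff₀ hε]
    linarith
  calc ε / 32 * Real.log (1 / ε) * k = (ε * k / 2) / 16 * Real.log (1 / ε) := by ring
    _ ≤ (d / 16 : ℝ) * Real.log (k / d) := by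
        have : ε * k / 2 ≤ d := by linarith
        gcongr
    _ ≤ Real.log n := h3

end Pool.Agent.R734.CK
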