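import Mathlib

/-!
# Colourings of pairs determined by `d` comparisons: the upper bound
-/

set_option autoImplicit false

namespace Pool.Agent.R734.CK

open Finset

/-- a median -/
theorem median {V α : Type} [LinearOrder α] (B : Finset V) (f : V → α) (M : ℕ) (hM : 1 ≤ M)
    (hB : 2 * M ≤ B.card) : ∃ t : α, M ≤ (B.filter (fun b => f b ≤ t)).card ∧
      M ≤ (B.filter (fun b => t ≤ f b)).card := by
  classical
  set C := B.filter (fun b => M ≤ (B.filter (fun b' => f b' ≤ f b)).card) with hC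
  have hne : C.Nonempty := by
    have hBne : B.Nonempty := card_pos.1 (by omega)
    obtain ⟨b, hb, hmax⟩ := B.exists_max_image f hBne
    refine ⟨b, mem_filter.2 ⟨hb, ?_⟩⟩
    rw [filter_true_of_mem (fun b' hb' => hmax b' hb')]
    omega
  obtain ⟨b, hbC, hmin⟩ := C.exists_min_image f hne
  have hb := mem_filter.1 hbC
  refine ⟨f b, hb.2, ?_⟩
  have hlt : (B.filter (fun b' => f b' < f b)).card < M := by
    by_contra hcon
    push Not at hcon
    have hne' : (B.filter (fun b' => f b' < f b)).Nonempty := card_pos.1 (by omega)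
    obtain ⟨b1, hb1, hmax⟩ := (B.filter (fun b' => f b' < f b)).exists_max_image f hne'
    have hb1' := mem_filter.1 hb1
    have h1 : b1 ∈ C := by
      refine mem_filter.2 ⟨hb1'.1, hcon.trans (card_le_card ?_)⟩
      intro x hx
      exact mem_filter.2 ⟨(mem_filter.1 hx).1, hmax x hx⟩
    exact absurd (hmin b1 h1) (not_le.2 hb1'.2)
  have hsum : (B.filter (fun b' => f b' < f b)).card + (B.filter (fun b' => ¬ f b' < f b)).card =
      B.card := card_filter_add_card_filter_not _
  have e : B.filter (fun b' => ¬ f b' < f b) = B.filter (fun b' => f b ≤ f b') := by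
    apply filter_congr
    intro x _
    rw [not_lt]
  rw [e] at hsum
  omega

/-- one comparison between two sets -/
theorem pair_one {V α : Type} [LinearOrder α] (A B : Finset V) (f g : V → α) (M : ℕ) (hM : 1 ≤ M)
    (hA : 2 * M ≤ A.card) (hB : 2 * M ≤ B.card) : ∃ A' ⊆ A, ∃ B' ⊆ B, M ≤ A'.card ∧ M ≤ B'.card ∧
      ((∀ a ∈ A', ∀ b ∈ B', f b < g a) ∨ (∀ a ∈ A', ∀ b ∈ B', ¬ f b < g a)) := by
  classical
  obtain ⟨t, h1, h2⟩ := median B f M hM hB
  have hsum : (A.filter (fun a => t < g a)).card + (A.filter (fun a => ¬ t < g a)).card =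
      A.card := card_filter_add_card_filter_not _
  rcases Nat.lt_or_ge (A.filter (fun a => t < g a)).card M with h | h
  · refine ⟨A.filter (fun a => ¬ t < g a), filter_subset _ _, B.filter (fun b => t ≤ f b),
      filter_subset _ _, by omega, h2, Or.inr ?_⟩
    intro a ha b hb
    have ha' := (mem_filter.1 ha).2
    have hb' := (mem_filter.1 hb).2
    exact not_lt.2 ((not_lt.1 ha').trans hb')
  · refine ⟨A.filter (fun a => t < g a), filter_subset _ _, B.filter (fun b => f b ≤ t),
      filter_subset _ _, h, h1, Or.inl ?_⟩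
    intro a ha b hb
    exact (mem_filter.1 hb).2.trans_lt (mem_filter.1 ha).2

/-- finitely many comparisons between two sets -/
theorem pair_many {V α κ : Type} [LinearOrder α] (f g : κ → V → α) (M : ℕ) (hM : 1 ≤ M)
    (K : Finset κ) : ∀ A B : Finset V, 2 ^ K.card * M ≤ A.card → 2 ^ K.card * M ≤ B.card →
      ∃ A' ⊆ A, ∃ B' ⊆ B, M ≤ A'.card ∧ M ≤ B'.card ∧
      ∀ l ∈ K, ((∀ a ∈ A', ∀ b ∈ B', f l b < g l a) ∨ (∀ a ∈ A', ∀ b ∈ B', ¬ f l b < g l a)) := by
  classical
  induction K using Finset.induction_on with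
  | empty =>
    intro A B hA hB
    rw [card_empty, pow_zero, one_mul] at hA hB
    exact ⟨A, Subset.rfl, B, Subset.rfl, hA, hB, by simp⟩
  | insert l K hl ih =>
    intro A B hA hB
    rw [card_insert_of_notMem hl, pow_succ, mul_comm (2 ^ K.card) 2, mul_assoc] at hA hB
    have hpos : 1 ≤ 2 ^ K.card * M := Nat.mul_pos (by positivity) hM
    obtain ⟨A1, hA1, B1, hB1, hA1c, hB1c, h1⟩ := pair_one A B (f l) (g l) _ hpos hA hB
    obtain ⟨A2, hA2, B2, hB2, hA2c, hB2c, h2⟩ := ih A1 B1 hA1c hB1c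
    refine ⟨A2, hA2.trans hA1, B2, hB2.trans hB1, hA2c, hB2c, ?_⟩
    intro l' hl'
    rcases mem_insert.1 hl' with h | h
    · rw [h]
      rcases h1 with h1 | h1
      · exact Or.inl (fun a ha b hb => h1 a (hA2 ha) b (hB2 hb))
      · exact Or.inr (fun a ha b hb => h1 a (hA2 ha) b (hB2 hb))
    · exact h2 l' h

/-- the smallest elements -/
theorem initial {V : Type} [LinearOrder V] (U : Finset V) (M : ℕ) (hM : M ≤ U.card) :
    ∃ A ⊆ U, A.card = M ∧ ∀ a ∈ A, ∀ b ∈ U \ A, a < b := by
  classical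
  induction M with
  | zero => exact ⟨∅, empty_subset _, rfl, by simp⟩
  | succ M ih =>
    obtain ⟨A, hA, hAc, hAU⟩ := ih (by omega)
    have hne : (U \ A).Nonempty := by
      rw [← card_pos, card_sdiff_of_subset hA]
      omega
    set b := (U \ A).min' hne with hb
    have hbU : b ∈ U \ A := (U \ A).min'_mem hne
    refine ⟨insert b A, ?_, ?_, ?_⟩
    · intro x hx
      rcases mem_insert.1 hx with h | h
      · rw [h]; exact (mem_sdiff.1 hbU).1
      · exact hA h
    · rw [card_insert_of_notMem (mem_sdiff.1 hbU).2, hAc]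
    · intro x hx y hy
      have hy' := mem_sdiff.1 hy
      have hyA : y ∈ U \ A := mem_sdiff.2 ⟨hy'.1, fun h => hy'.2 (mem_insert_of_mem h)⟩
      rcases mem_insert.1 hx with h | h
      · rw [h]
        refine lt_of_le_of_ne ((U \ A).min'_le y hyA) (fun e => hy'.2 ?_)
        rw [← e]
        exact mem_insert_self _ _
      · exact hAU x h y hyA

/-- `a` red or `b` blue vertices among any `N` vertices -/
def Arrow {V : Type} [LinearOrder V] (R : V → V → Prop) (a b N : ℕ) : Prop :=
  ∀ U : Finset V, N ≤ U.card → (∃ S ⊆ U, S.card = a ∧ ∀ x ∈ S, ∀ y ∈ S, x < y → R x y) ∨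
    (∃ S ⊆ U, S.card = b ∧ ∀ x ∈ S, ∀ y ∈ S, x < y → ¬ R x y)

variable {V : Type} [LinearOrder V] {R : V → V → Prop}

theorem Arrow.mono {a b N a' b' N' : ℕ} (h : Arrow R a b N) (ha : a' ≤ a) (hb : b' ≤ b)
    (hN : N ≤ N') : Arrow R a' b' N' := by
  intro U hU
  rcases h U (hN.trans hU) with ⟨S, hS, hSc, hSR⟩ | ⟨S, hS, hSc, hSR⟩
  · obtain ⟨T, hT, hTc⟩ := exists_subset_card_eq (s := S) (n := a') (by omega)
    exact Or.inl ⟨T, hT.trans hS, hTc, fun x hx y hy => hSR x (hT hx) y (hT hy)⟩
  · obtain ⟨T, hT, hTc⟩ := exists_subset_card_eq (s := S) (n := b') (by omega)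
    exact Or.inr ⟨T, hT.trans hS, hTc, fun x hx y hy => hSR x (hT hx) y (hT hy)⟩

/-- Erdős–Szekeres -/
theorem arrow_choose (n : ℕ) : ∀ a b : ℕ, a + b = n → Arrow R a b ((a + b).choose a) := by
  classical
  induction n with
  | zero =>
    intro a b hab U _
    obtain rfl : a = 0 := by omega
    exact Or.inl ⟨∅, empty_subset _, rfl, by simp⟩
  | succ n ih =>
    intro a b hab U hU
    rcases Nat.eq_zero_or_pos a with rfl | ha
    · exact Or.inl ⟨∅, empty_subset _, rfl, by simp⟩
    rcases Nat.eq_zero_or_pos b with rfl | hb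
    · exact Or.inr ⟨∅, empty_subset _, rfl, by simp⟩
    obtain ⟨a, rfl⟩ : ∃ a', a = a' + 1 := ⟨a - 1, by omega⟩
    obtain ⟨b, rfl⟩ : ∃ b', b = b' + 1 := ⟨b - 1, by omega⟩
    have hch : (a + 1 + (b + 1)).choose (a + 1) =
        (a + (b + 1)).choose a + (a + 1 + b).choose (a + 1) := by
      rw [show a + 1 + (b + 1) = (a + b + 1) + 1 by ring, Nat.choose_succ_succ,
        show a + (b + 1) = a + b + 1 by ring, show a + 1 + b = a + b + 1 by ring]
    rw [hch] at hU
    have hp1 : 1 ≤ (a + (b + 1)).choose a := Nat.choose_pos (by omega)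
    have hUne : U.Nonempty := card_pos.1 (by omega)
    set v := U.min' hUne with hv
    have hvU : v ∈ U := U.min'_mem hUne
    set U1 := U.erase v with hU1
    have hU1c : U1.card = U.card - 1 := card_erase_of_mem hvU
    have hlt : ∀ w ∈ U1, v < w := by
      intro w hw
      have h := mem_erase.1 hw
      exact lt_of_le_of_ne (U.min'_le w h.2) (fun e => h.1 e.symm)
    have hsum : (U1.filter (fun w => R v w)).card + (U1.filter (fun w => ¬ R v w)).card =
        U1.card := card_filter_add_card_filter_not _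
    rcases Nat.lt_or_ge (U1.filter (fun w => R v w)).card ((a + (b + 1)).choose a) with h | h
    · -- many blue neighbours
      rcases ih (a + 1) b (by omega) (U1.filter (fun w => ¬ R v w)) (by omega) with h1 | h1
      · obtain ⟨S, hS, hSc, hSR⟩ := h1
        exact Or.inl ⟨S, (hS.trans (filter_subset _ _)).trans (erase_subset _ _), hSc, hSR⟩
      · obtain ⟨S, hS, hSc, hSR⟩ := h1
        have hvS : v ∉ S := fun hvS => absurd (hlt v (mem_filter.1 (hS hvS)).1) (lt_irrefl _)
        refine Or.inr ⟨insert v S, ?_, by rw [card_insert_of_notMem hvS, hSc], ?_⟩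
        · intro x hx
          rcases mem_insert.1 hx with h2 | h2
          · rw [h2]; exact hvU
          · exact mem_of_mem_erase (mem_filter.1 (hS h2)).1
        · intro x hx y hy hxy
          rcases mem_insert.1 hx with h2 | h2
          · rcases mem_insert.1 hy with h3 | h3
            · rw [h2, h3] at hxy; exact absurd hxy (lt_irrefl _)
            · rw [h2]; exact (mem_filter.1 (hS h3)).2
          · rcases mem_insert.1 hy with h3 | h3
            · rw [h3] at hxy
              exact absurd (hlt x (mem_filter.1 (hS h2)).1) (not_lt.2 hxy.le)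
            · exact hSR x h2 y h3 hxy
    · rcases ih a (b + 1) (by omega) (U1.filter (fun w => R v w)) h with h1 | h1
      · obtain ⟨S, hS, hSc, hSR⟩ := h1
        have hvS : v ∉ S := fun hvS => absurd (hlt v (mem_filter.1 (hS hvS)).1) (lt_irrefl _)
        refine Or.inl ⟨insert v S, ?_, by rw [card_insert_of_notMem hvS, hSc], ?_⟩
        · intro x hx
          rcases mem_insert.1 hx with h2 | h2
          · rw [h2]; exact hvU
          · exact mem_of_mem_erase (mem_filter.1 (hS h2)).1
        · intro x hx y hy hxy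
          rcases mem_insert.1 hx with h2 | h2
          · rcases mem_insert.1 hy with h3 | h3
            · rw [h2, h3] at hxy; exact absurd hxy (lt_irrefl _)
            · rw [h2]; exact (mem_filter.1 (hS h3)).2
          · rcases mem_insert.1 hy with h3 | h3
            · rw [h3] at hxy
              exact absurd (hlt x (mem_filter.1 (hS h2)).1) (not_lt.2 hxy.le)
            · exact hSR x h2 y h3 hxy
      · obtain ⟨S, hS, hSc, hSR⟩ := h1
        exact Or.inr ⟨S, (hS.trans (filter_subset _ _)).trans (erase_subset _ _), hSc, hSR⟩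

/-- the red/blue relation is determined by comparisons -/
def Det {α : Type} [LinearOrder α] {d : ℕ} (R : V → V → Prop) (f g : Fin d → V → α) : Prop :=
  ∀ x y x' y' : V, x < y → x' < y' → (∀ l, f l y < g l x ↔ f l y' < g l x') → (R x y ↔ R x' y')

/-- halving -/
theorem arrow_double {α : Type} [LinearOrder α] {d : ℕ} {f g : Fin d → V → α} (h : Det R f g)
    {a b M : ℕ} (hM : 1 ≤ M) (h1 : Arrow R a (2 * b) M) (h2 : Arrow R (2 * a) b M) :
    Arrow R (2 * a) (2 * b) (2 ^ (d + 1) * M) := by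
  classical
  intro U hU
  rw [pow_succ, mul_comm (2 ^ d) 2, mul_assoc] at hU
  obtain ⟨A, hA, hAc, hAU⟩ := initial U (2 ^ d * M) (by omega)
  have hBc : 2 ^ d * M ≤ (U \ A).card := by
    rw [card_sdiff_of_subset hA]
    omega
  obtain ⟨A', hA', B', hB', hA'c, hB'c, h3⟩ := pair_many f g M hM (univ : Finset (Fin d)) A (U \ A)
    (by rw [card_univ, Fintype.card_fin]; exact hAc.ge)
    (by rw [card_univ, Fintype.card_fin]; exact hBc)
  have hlt : ∀ x ∈ A', ∀ y ∈ B', x < y := fun x hx y hy => hAU x (hA' hx) y (hB' hy)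
  have hcard : ∀ S T : Finset V, S ⊆ A' → T ⊆ B' → (S ∪ T).card = S.card + T.card := by
    intro S T hS hT
    apply card_union_of_disjoint
    rw [Finset.disjoint_left]
    intro x hxS hxT
    exact absurd (hlt x (hS hxS) x (hT hxT)) (lt_irrefl _)
  have hsub : ∀ S T : Finset V, S ⊆ A' → T ⊆ B' → S ∪ T ⊆ U := by
    intro S T hS hT x hx
    rcases mem_union.1 hx with h | h
    · exact hA (hA' (hS h))
    · exact (mem_sdiff.1 (hB' (hT h))).1
  obtain ⟨x0, hx0⟩ := card_pos.1 (by omega : 0 < A'.card)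
  obtain ⟨y0, hy0⟩ := card_pos.1 (by omega : 0 < B'.card)
  have hsame : ∀ x ∈ A', ∀ y ∈ B', (R x y ↔ R x0 y0) := by
    intro x hx y hy
    refine h x y x0 y0 (hlt x hx y hy) (hlt x0 hx0 y0 hy0) (fun l => ?_)
    rcases h3 l (mem_univ l) with h4 | h4
    · exact iff_of_true (h4 x hx y hy) (h4 x0 hx0 y0 hy0)
    · exact iff_of_false (h4 x hx y hy) (h4 x0 hx0 y0 hy0)
  by_cases hR : R x0 y0
  · rcases h1 A' hA'c with h4 | ⟨S, hS, hSc, hSR⟩
    · rcases h1 B' hB'c with h5 | ⟨S, hS, hSc, hSR⟩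
      · obtain ⟨S, hS, hSc, hSR⟩ := h4
        obtain ⟨T, hT, hTc, hTR⟩ := h5
        refine Or.inl ⟨S ∪ T, hsub S T hS hT, by rw [hcard S T hS hT, hSc, hTc]; ring, ?_⟩
        intro x hx y hy hxy
        rcases mem_union.1 hx with h6 | h6
        · rcases mem_union.1 hy with h7 | h7
          · exact hSR x h6 y h7 hxy
          · exact (hsame x (hS h6) y (hT h7)).2 hR
        · rcases mem_union.1 hy with h7 | h7
          · exact absurd (hlt y (hS h7) x (hT h6)) (not_lt.2 hxy.le)
          · exact hTR x h6 y h7 hxy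
      · exact Or.inr ⟨S, fun x hx => (mem_sdiff.1 (hB' (hS hx))).1, hSc, hSR⟩
    · exact Or.inr ⟨S, fun x hx => hA (hA' (hS hx)), hSc, hSR⟩
  · rcases h2 A' hA'c with ⟨S, hS, hSc, hSR⟩ | h4
    · exact Or.inl ⟨S, fun x hx => hA (hA' (hS hx)), hSc, hSR⟩
    · rcases h2 B' hB'c with ⟨S, hS, hSc, hSR⟩ | h5
      · exact Or.inl ⟨S, fun x hx => (mem_sdiff.1 (hB' (hS hx))).1, hSc, hSR⟩
      · obtain ⟨S, hS, hSc, hSR⟩ := h4
        obtain ⟨T, hT, hTc, hTR⟩ := h5
        refine Or.inr ⟨S ∪ T, hsub S T hS hT, by rw [hcard S T hS hT, hSc, hTc]; ring, ?_⟩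
        intro x hx y hy hxy
        rcases mem_union.1 hx with h6 | h6
        · rcases mem_union.1 hy with h7 | h7
          · exact hSR x h6 y h7 hxy
          · exact fun h8 => hR ((hsame x (hS h6) y (hT h7)).1 h8)
        · rcases mem_union.1 hy with h7 | h7
          · exact absurd (hlt y (hS h7) x (hT h6)) (not_lt.2 hxy.le)
          · exact hTR x h6 y h7 hxy

/-- iterated halving -/
theorem arrow_pow {α : Type} [LinearOrder α] {d : ℕ} {f g : Fin d → V → α} (h : Det R f g)
    (a T E : ℕ) (hE : 1 ≤ E) (h1 : ∀ t ≤ T, Arrow R a (a * 2 ^ t) E)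
    (h2 : ∀ s ≤ T, Arrow R (a * 2 ^ s) a E) :
    ∀ n s t : ℕ, s + t = n → s ≤ T → t ≤ T →
      Arrow R (a * 2 ^ s) (a * 2 ^ t) ((2 ^ (d + 1)) ^ (s + t) * E) := by
  intro n
  induction n with
  | zero =>
    intro s t hst hs ht
    obtain rfl : s = 0 := by omega
    obtain rfl : t = 0 := by omega
    simpa using h1 0 ht
  | succ n ih =>
    intro s t hst hs ht
    have hpow : ∀ m : ℕ, E ≤ (2 ^ (d + 1)) ^ m * E := fun m =>
      Nat.le_mul_of_pos_left _ (by positivity)
    rcases Nat.eq_zero_or_pos s with rfl | hs0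
    · rw [pow_zero, mul_one]
      exact (h1 t ht).mono le_rfl le_rfl (hpow _)
    rcases Nat.eq_zero_or_pos t with rfl | ht0
    · rw [pow_zero, mul_one]
      exact (h2 s hs).mono le_rfl le_rfl (hpow _)
    obtain ⟨s, rfl⟩ : ∃ s', s = s' + 1 := ⟨s - 1, by omega⟩
    obtain ⟨t, rfl⟩ : ∃ t', t = t' + 1 := ⟨t - 1, by omega⟩
    have e1 := ih s (t + 1) (by omega) (by omega) ht
    have e2 := ih (s + 1) t (by omega) hs (by omega)
    have hs' : s + (t + 1) = n := by omega
    have ht' : s + 1 + t = n := by omega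
    rw [hs'] at e1
    rw [ht'] at e2
    have hpt : a * 2 ^ (t + 1) = 2 * (a * 2 ^ t) := by ring
    have hps : a * 2 ^ (s + 1) = 2 * (a * 2 ^ s) := by ring
    rw [hpt] at e1 ⊢
    rw [hps] at e2 ⊢
    have := arrow_double h (a := a * 2 ^ s) (b := a * 2 ^ t) (M := (2 ^ (d + 1)) ^ n * E)
      (le_trans hE (hpow n)) e1 e2
    rw [show s + 1 + (t + 1) = n + 1 by omega, pow_succ, mul_comm ((2 ^ (d + 1)) ^ n), mul_assoc]
    exact this

/-- **Upper bound.** -/
theorem arrow_main {α : Type} [LinearOrder α] {d : ℕ} {f g : Fin d → V → α} (h : Det R f g)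
    (a T : ℕ) : Arrow R (a * 2 ^ T) (a * 2 ^ T)
      ((2 ^ (d + 1)) ^ (2 * T) * (a + a * 2 ^ T).choose a) := by
  have hle : ∀ t ≤ T, (a + a * 2 ^ t).choose a ≤ (a + a * 2 ^ T).choose a := by
    intro t ht
    apply Nat.choose_le_choose
    have : 2 ^ t ≤ 2 ^ T := Nat.pow_le_pow_right (by norm_num) ht
    gcongr
  have := arrow_pow h a T ((a + a * 2 ^ T).choose a) (Nat.choose_pos (by omega))
    (fun t ht => (arrow_choose _ a (a * 2 ^ t) rfl).mono le_rfl le_rfl (hle t ht))
    (fun t ht => (arrow_choose _ (a * 2 ^ t) a rfl).mono le_rfl le_rfl (by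
      rw [add_comm, ← Nat.choose_symm_of_eq_add (n := a + a * 2 ^ t) (a := a) (b := a * 2 ^ t)
        rfl]
      exact hle t ht))
    (T + T) T T rfl le_rfl le_rfl
  rw [show 2 * T = T + T by ring]
  exact this

end Pool.Agent.R734.CK
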