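import Pool.Agent.R734.CK.Perm
import Pool.Agent.R734.CK.Upper

/-!
# The random construction
-/

set_option autoImplicit false

namespace Pool.Agent.R734.CK

open Finset

/-- The two-colouring of the edges of the complete graph on `Fin n` in which the edges of `G` are
red and the others blue is determined by `d` comparisons: there are `d` pairs of real functions
`f l`, `g l` of the vertices such that the colour of the edge `x y`, `x < y`, only depends on the
set of the `l` with `f l y < g l x`. -/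
def DeterminedBy {n : ℕ} (G : SimpleGraph (Fin n)) (d : ℕ) : Prop :=
  ∃ f g : Fin d → Fin n → ℝ, ∀ x y x' y' : Fin n, x < y → x' < y' →
    (∀ l, f l y < g l x ↔ f l y' < g l x') → (G.Adj x y ↔ G.Adj x' y')

/-- There is no monochromatic complete graph on `k` vertices. -/
def NoMono {n : ℕ} (G : SimpleGraph (Fin n)) (k : ℕ) : Prop :=
  G.CliqueFree k ∧ Gᶜ.CliqueFree k

theorem DeterminedBy.mono {n : ℕ} {G : SimpleGraph (Fin n)} {d d' : ℕ} (h : DeterminedBy G d)
    (hd : d ≤ d') : DeterminedBy G d' := by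
  obtain ⟨f, g, hfg⟩ := h
  refine ⟨fun l x => if hl : l.val < d then f ⟨l.val, hl⟩ x else 0,
    fun l x => if hl : l.val < d then g ⟨l.val, hl⟩ x else 0, ?_⟩
  intro x y x' y' h1 h2 h3
  refine hfg x y x' y' h1 h2 (fun l => ?_)
  have h4 := h3 ⟨l.val, by omega⟩
  simpa using h4

theorem NoMono.mono {n : ℕ} {G : SimpleGraph (Fin n)} {k k' : ℕ} (h : NoMono G k) (hk : k ≤ k') :
    NoMono G k' :=
  ⟨h.1.mono hk, h.2.mono hk⟩

/-- the union bound -/
theorem exists_orders {p t N : ℕ} (hp : 1 ≤ p) (ht : 2 ≤ t) (r : ℝ)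
    (hr : 4 * p * Real.exp 1 ≤ r * (t + 1)) (hr0 : 0 ≤ r) (hN : (N : ℝ) ^ 2 * r ^ p ≤ 1) :
    ∃ ω : Fin (2 * p) → Equiv.Perm (Fin N), ∀ S : Finset (Fin N), ∀ hS : S.card = 2 * t,
      ∀ c : ℝ, (c = 1 ∨ c = -1) → ¬ ∀ i j : Fin (2 * t), i < j →
        ∏ l, ss (ω l (S.orderEmbOfFin hS i)) (ω l (S.orderEmbOfFin hS j)) = c := by
  classical
  by_contra hcon
  push Not at hcon
  let Bad : (Finset (Fin N)) → ℝ → Finset (Fin (2 * p) → Equiv.Perm (Fin N)) := fun S c =>
    univ.filter (fun ω => ∃ hS : S.card = 2 * t, ∀ i j : Fin (2 * t), i < j →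
      ∏ l, ss (ω l (S.orderEmbOfFin hS i)) (ω l (S.orderEmbOfFin hS j)) = c)
  have hcov : (univ : Finset (Fin (2 * p) → Equiv.Perm (Fin N))) ⊆
      ((powersetCard (2 * t) (univ : Finset (Fin N))) ×ˢ ({1, -1} : Finset ℝ)).biUnion
        (fun q => Bad q.1 q.2) := by
    intro ω _
    obtain ⟨S, hS, c, hc, h⟩ := hcon ω
    rw [mem_biUnion]
    refine ⟨(S, c), ?_, mem_filter.2 ⟨mem_univ _, hS, h⟩⟩
    rw [mem_product, mem_powersetCard]
    refine ⟨⟨subset_univ _, hS⟩, ?_⟩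
    rw [mem_insert, mem_singleton]
    exact hc
  have hfac : (0 : ℝ) < ((N.factorial : ℝ)) ^ (2 * p) := by
    have : (0 : ℝ) < N.factorial := by exact_mod_cast N.factorial_pos
    positivity
  have hbad : ∀ q ∈ (powersetCard (2 * t) (univ : Finset (Fin N))) ×ˢ ({1, -1} : Finset ℝ),
      ((Bad q.1 q.2).card : ℝ) ≤ (N.factorial : ℝ) ^ (2 * p) * r ^ (p * t) := by
    rintro ⟨S, c⟩ hq
    rw [mem_product, mem_powersetCard] at hq
    obtain ⟨⟨-, hS⟩, hc⟩ := hq
    have hc' : c = 1 ∨ c = -1 := by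
      simpa using hc
    simp only at hS
    have h1 := symm_count (d := 2 * p) (S.orderEmbOfFin hS).toEmbedding c
    have h2 : (Bad S c).card * (2 * t).factorial ^ (2 * p) =
        N.factorial ^ (2 * p) * (T (2 * p) (2 * t) c).card := by
      rw [← h1]
      congr 2
      apply filter_congr
      intro ω _
      constructor
      · rintro ⟨_, h⟩
        exact h
      · intro h
        exact ⟨hS, h⟩
    have h3 := T_decay hp c hc' t r hr t
    rw [← two_mul] at h3
    have h4 : (0 : ℝ) < ((2 * t).factorial : ℝ) ^ (2 * p) := by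
      have : (0 : ℝ) < (2 * t).factorial := by exact_mod_cast (2 * t).factorial_pos
      positivity
    have h5 : ((Bad S c).card : ℝ) * ((2 * t).factorial : ℝ) ^ (2 * p) =
        (N.factorial : ℝ) ^ (2 * p) * (T (2 * p) (2 * t) c).card := by
      exact_mod_cast h2
    have h6 : ((Bad S c).card : ℝ) * ((2 * t).factorial : ℝ) ^ (2 * p) ≤
        ((N.factorial : ℝ) ^ (2 * p) * r ^ (p * t)) * ((2 * t).factorial : ℝ) ^ (2 * p) := by
      rw [h5]
      calc (N.factorial : ℝ) ^ (2 * p) * (T (2 * p) (2 * t) c).card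
          ≤ (N.factorial : ℝ) ^ (2 * p) * (((2 * t).factorial : ℝ) ^ (2 * p) * r ^ (p * t)) :=
            mul_le_mul_of_nonneg_left h3 hfac.le
        _ = _ := by ring
    exact le_of_mul_le_mul_right h6 h4
  have h1 := (card_le_card hcov).trans card_biUnion_le
  rw [card_univ, Fintype.card_fun, Fintype.card_perm, Fintype.card_fin, Fintype.card_fin] at h1
  have h2 : ((N.factorial : ℝ)) ^ (2 * p) ≤
      ∑ q ∈ (powersetCard (2 * t) (univ : Finset (Fin N))) ×ˢ ({1, -1} : Finset ℝ),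
        ((Bad q.1 q.2).card : ℝ) := by
    exact_mod_cast h1
  have h3 := h2.trans (sum_le_sum hbad)
  rw [sum_const, nsmul_eq_mul, card_product, card_powersetCard, card_univ, Fintype.card_fin] at h3
  have hc2 : (({1, -1} : Finset ℝ)).card = 2 := by
    rw [card_pair]
    norm_num
  rw [hc2] at h3
  have h4 : ((N.choose (2 * t) : ℕ) : ℝ) ≤ (N : ℝ) ^ (2 * t) / ((2 * t).factorial : ℝ) :=
    Nat.choose_le_pow_div (2 * t) N
  have h5 : (3 : ℝ) ≤ ((2 * t).factorial : ℝ) := by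
    have : 3 ≤ (2 * t).factorial := by
      calc 3 ≤ 2 * t := by omega
        _ ≤ (2 * t).factorial := Nat.self_le_factorial _
    exact_mod_cast this
  have h6 : (N : ℝ) ^ (2 * t) * r ^ (p * t) ≤ 1 := by
    rw [pow_mul, pow_mul, ← mul_pow]
    exact pow_le_one₀ (by positivity) hN
  have h7 : ((N.choose (2 * t) * 2 : ℕ) : ℝ) * ((N.factorial : ℝ) ^ (2 * p) * r ^ (p * t)) ≤
      (2 / 3) * (N.factorial : ℝ) ^ (2 * p) := by
    push_cast
    have e1 : ((N.choose (2 * t) : ℕ) : ℝ) * r ^ (p * t) ≤ 1 / 3 := by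
      calc ((N.choose (2 * t) : ℕ) : ℝ) * r ^ (p * t)
          ≤ ((N : ℝ) ^ (2 * t) / ((2 * t).factorial : ℝ)) * r ^ (p * t) :=
            mul_le_mul_of_nonneg_right h4 (by positivity)
        _ = ((N : ℝ) ^ (2 * t) * r ^ (p * t)) / ((2 * t).factorial : ℝ) := by ring
        _ ≤ 1 / 3 := by
            apply div_le_div₀ (by norm_num) h6 (by norm_num) h5
    calc ((N.choose (2 * t) : ℕ) : ℝ) * 2 * ((N.factorial : ℝ) ^ (2 * p) * r ^ (p * t))
        = 2 * (((N.choose (2 * t) : ℕ) : ℝ) * r ^ (p * t)) * (N.factorial : ℝ) ^ (2 * p) := by ring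
      _ ≤ 2 * (1 / 3) * (N.factorial : ℝ) ^ (2 * p) := by gcongr
      _ = (2 / 3) * (N.factorial : ℝ) ^ (2 * p) := by ring
  have h8 := h3.trans h7
  linarith

/-- **Lower bound.** -/
theorem lower {p t N : ℕ} (hp : 1 ≤ p) (ht : 2 ≤ t) (r : ℝ)
    (hr : 4 * p * Real.exp 1 ≤ r * (t + 1)) (hr0 : 0 ≤ r) (hN : (N : ℝ) ^ 2 * r ^ p ≤ 1) :
    ∃ G : SimpleGraph (Fin N), NoMono G (2 * t) ∧ DeterminedBy G (2 * p) := by
  classical
  obtain ⟨ω, hω⟩ := exists_orders hp ht r hr hr0 hN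
  have hsign : ∀ x y : Fin N, ∏ l, ss (ω l x) (ω l y) = 1 ∨ ∏ l, ss (ω l x) (ω l y) = -1 := by
    intro x y
    apply prod_sign
    intro l _
    unfold ss
    split_ifs
    · exact Or.inr rfl
    · exact Or.inl rfl
  let G : SimpleGraph (Fin N) :=
    { Adj := fun x y => x ≠ y ∧ ∏ l, ss (ω l (min x y)) (ω l (max x y)) = 1
      symm := ⟨by
        rintro x y ⟨h1, h2⟩
        refine ⟨h1.symm, ?_⟩
        rw [min_comm, max_comm]
        exact h2⟩
      loopless := ⟨fun x h => h.1 rfl⟩ }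
  have hadj : ∀ x y : Fin N, x < y → (G.Adj x y ↔ ∏ l, ss (ω l x) (ω l y) = 1) := by
    intro x y hxy
    change (x ≠ y ∧ _) ↔ _
    rw [min_eq_left hxy.le, max_eq_right hxy.le]
    exact ⟨fun h => h.2, fun h => ⟨hxy.ne, h⟩⟩
  refine ⟨G, ⟨?_, ?_⟩, ?_⟩
  · intro S hS
    refine hω S hS.card_eq 1 (Or.inl rfl) (fun i j hij => ?_)
    have hlt : S.orderEmbOfFin hS.card_eq i < S.orderEmbOfFin hS.card_eq j :=
      (S.orderEmbOfFin hS.card_eq).strictMono hij
    rw [← hadj _ _ hlt]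
    exact hS.isClique (S.orderEmbOfFin_mem hS.card_eq i) (S.orderEmbOfFin_mem hS.card_eq j) hlt.ne
  · intro S hS
    refine hω S hS.card_eq (-1) (Or.inr rfl) (fun i j hij => ?_)
    have hlt : S.orderEmbOfFin hS.card_eq i < S.orderEmbOfFin hS.card_eq j :=
      (S.orderEmbOfFin hS.card_eq).strictMono hij
    have h1 : Gᶜ.Adj (S.orderEmbOfFin hS.card_eq i) (S.orderEmbOfFin hS.card_eq j) :=
      hS.isClique (S.orderEmbOfFin_mem hS.card_eq i) (S.orderEmbOfFin_mem hS.card_eq j) hlt.ne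
    have h2 : ¬ G.Adj (S.orderEmbOfFin hS.card_eq i) (S.orderEmbOfFin hS.card_eq j) := by
      rw [SimpleGraph.compl_adj] at h1
      exact h1.2
    rw [hadj _ _ hlt] at h2
    exact (hsign _ _).resolve_left h2
  · refine ⟨fun l x => ((ω l x).val : ℝ), fun l x => ((ω l x).val : ℝ), ?_⟩
    intro x y x' y' hxy hxy' h
    rw [hadj x y hxy, hadj x' y' hxy']
    have e : ∏ l, ss (ω l x) (ω l y) = ∏ l, ss (ω l x') (ω l y') := by
      apply prod_congr rfl
      intro l _
      have h1 := h l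
      simp only [Nat.cast_lt] at h1
      unfold ss
      simp only [Fin.lt_def, h1]
    rw [e]

/-- **Upper bound.** -/
theorem upper {n d k T : ℕ} (G : SimpleGraph (Fin n)) (hG : NoMono G k) (hd : DeterminedBy G d)
    (hT : k ≤ d * 2 ^ T) : n < (2 ^ (d + 1)) ^ (2 * T) * (d + d * 2 ^ T).choose d := by
  classical
  by_contra hcon
  push Not at hcon
  obtain ⟨f, g, hfg⟩ := hd
  have h1 := arrow_main (R := fun x y : Fin n => G.Adj x y) (f := f) (g := g) hfg d T
  rcases h1 univ (by rwa [card_univ, Fintype.card_fin]) with ⟨S, -, hSc, hSR⟩ | ⟨S, -, hSc, hSR⟩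
  · have h2 := hG.1.mono hT
    refine h2 S ⟨?_, hSc⟩
    intro x hx y hy hxy
    rcases lt_or_gt_of_ne hxy with h | h
    · exact hSR x hx y hy h
    · exact (hSR y hy x hx h).symm
  · have h2 := hG.2.mono hT
    refine h2 S ⟨?_, hSc⟩
    intro x hx y hy hxy
    rw [SimpleGraph.compl_adj]
    refine ⟨hxy, ?_⟩
    rcases lt_or_gt_of_ne hxy with h | h
    · exact hSR x hx y hy h
    · exact fun h' => hSR y hy x hx h h'.symm

end Pool.Agent.R734.CK
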