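import Mathlib

/-!
# Moments of the sums over a chain
-/

set_option autoImplicit false

namespace Pool.Agent.R734.CK

open Finset

/-- the sum over the chain of final segments -/
noncomputable def F (k : ℕ) (W : Fin k → Bool) : ℝ :=
  ∑ m : Fin (k + 1), ∏ t : Fin k, (if W t = true ∧ m.val ≤ t.val then (-1 : ℝ) else 1)

/-- the sign of a bit -/
noncomputable def sg (b : Bool) : ℝ := if b = true then -1 else 1

theorem F_succ (k : ℕ) (W : Fin (k + 1) → Bool) :
    F (k + 1) W = 1 + sg (W (Fin.last k)) * F k (Fin.init W) := by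
  unfold F
  rw [Fin.sum_univ_castSucc, add_comm]
  congr 1
  · apply prod_eq_one
    intro t _
    rw [if_neg]
    rintro ⟨_, h⟩
    rw [Fin.val_last] at h
    omega
  · rw [mul_sum]
    apply sum_congr rfl
    intro m _
    rw [Fin.prod_univ_castSucc, mul_comm]
    have hm : m.val ≤ k := by omega
    simp only [Fin.val_castSucc, Fin.val_last, hm, and_true]
    rfl

theorem sum_cosh (x : ℝ) (k : ℕ) : ∑ W : Fin k → Bool, Real.cosh (x * F k W) =
    2 ^ k * Real.cosh x ^ (k + 1) := by
  induction k with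
  | zero =>
    simp [F]
  | succ k ih =>
    rw [← (Fin.snocEquiv (fun _ => Bool)).sum_comp, Fintype.sum_prod_type]
    simp only [F_succ]
    have e : ∀ (b : Bool) (W : Fin k → Bool), Real.cosh (x * (1 + sg
        ((Fin.snocEquiv (fun _ => Bool)) (b, W) (Fin.last k)) *
        F k (Fin.init ((Fin.snocEquiv (fun _ => Bool)) (b, W))))) =
        Real.cosh (x * (1 + sg b * F k W)) := by
      intro b W
      have e1 : (Fin.snocEquiv (fun _ => Bool)) (b, W) (Fin.last k) = b := by
        simp [Fin.snocEquiv]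
      have e2 : Fin.init ((Fin.snocEquiv (fun _ : Fin (k + 1) => Bool)) (b, W)) = W := by
        funext i
        simp [Fin.snocEquiv, Fin.init]
      rw [e1, e2]
    simp only [e]
    rw [Fintype.sum_bool, ← sum_add_distrib]
    have e3 : ∀ W : Fin k → Bool, Real.cosh (x * (1 + sg true * F k W)) +
        Real.cosh (x * (1 + sg false * F k W)) = 2 * Real.cosh x * Real.cosh (x * F k W) := by
      intro W
      simp only [sg, if_true, Bool.false_eq_true, if_false]
      rw [show x * (1 + -1 * F k W) = x - x * F k W by ring,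
        show x * (1 + 1 * F k W) = x + x * F k W by ring, Real.cosh_add, Real.cosh_sub]
      ring
    simp only [e3]
    rw [← mul_sum, ih]
    ring

theorem abs_pow_le (y : ℝ) (n : ℕ) : |y| ^ n ≤ 2 * n.factorial * Real.cosh y := by
  have h1 := Real.pow_div_factorial_le_exp |y| (abs_nonneg y) n
  have h2 : (0 : ℝ) < n.factorial := by exact_mod_cast n.factorial_pos
  rw [div_le_iff₀ h2] at h1
  have h3 : Real.exp |y| ≤ 2 * Real.cosh y := by
    rw [Real.cosh_eq]
    rcases abs_cases y with ⟨h, _⟩ | ⟨h, _⟩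
    · rw [h]
      have := Real.exp_pos (-y)
      linarith
    · rw [h]
      have := Real.exp_pos y
      linarith
  calc |y| ^ n ≤ Real.exp |y| * n.factorial := h1
    _ ≤ (2 * Real.cosh y) * n.factorial := mul_le_mul_of_nonneg_right h3 h2.le
    _ = 2 * n.factorial * Real.cosh y := by ring

theorem moment (k p : ℕ) (hp : 1 ≤ p) : ∑ W : Fin k → Bool, |F k W| ^ (2 * p) ≤
    2 ^ k * (2 * (2 * p * Real.exp 1 * (k + 1)) ^ p) := by
  set x : ℝ := Real.sqrt (2 * p / (k + 1)) with hx
  have hk : (0 : ℝ) < k + 1 := by positivity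
  have hp' : (0 : ℝ) < p := by exact_mod_cast hp
  have hxx : x ^ 2 = 2 * p / (k + 1) := Real.sq_sqrt (by positivity)
  have hxpos : 0 < x := Real.sqrt_pos.2 (by positivity)
  have hxp : x ^ (2 * p) = (2 * p / (k + 1)) ^ p := by rw [pow_mul, hxx]
  have h1 : ∑ W : Fin k → Bool, (x * |F k W|) ^ (2 * p) ≤
      2 * ((2 * p).factorial : ℝ) * (2 ^ k * Real.cosh x ^ (k + 1)) := by
    rw [← sum_cosh, mul_sum]
    apply sum_le_sum
    intro W _
    have := abs_pow_le (x * F k W) (2 * p)
    rwa [abs_mul, abs_of_pos hxpos] at this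
  simp only [mul_pow] at h1
  rw [← mul_sum, hxp] at h1
  have h2 : Real.cosh x ^ (k + 1) ≤ Real.exp p := by
    calc Real.cosh x ^ (k + 1) ≤ (Real.exp (x ^ 2 / 2)) ^ (k + 1) :=
          pow_le_pow_left₀ (Real.cosh_pos x).le (Real.cosh_le_exp_half_sq x) _
      _ = Real.exp p := by
          rw [← Real.exp_nat_mul, hxx]
          congr 1
          push_cast
          field_simp
  have h3 : ((2 * p).factorial : ℝ) ≤ (2 * p : ℝ) ^ (2 * p) := by
    have := Nat.factorial_le_pow (2 * p)
    calc ((2 * p).factorial : ℝ) ≤ (((2 * p) ^ (2 * p) : ℕ) : ℝ) := by exact_mod_cast this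
      _ = (2 * p : ℝ) ^ (2 * p) := by push_cast; ring
  have h4 : (2 * p / (k + 1) : ℝ) ^ p * ∑ W : Fin k → Bool, |F k W| ^ (2 * p) ≤
      2 * (2 * p : ℝ) ^ (2 * p) * (2 ^ k * Real.exp p) := by
    refine h1.trans ?_
    gcongr
  have h5 : (0 : ℝ) < (2 * p / (k + 1)) ^ p := by positivity
  have h6 : 2 * (2 * p : ℝ) ^ (2 * p) * (2 ^ k * Real.exp p) =
      (2 * p / (k + 1) : ℝ) ^ p * (2 ^ k * (2 * (2 * p * Real.exp 1 * (k + 1)) ^ p)) := by
    have e1 : Real.exp p = Real.exp 1 ^ p := by rw [← Real.exp_nat_mul, mul_one]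
    rw [e1, pow_mul]
    have e2 : (2 * p / (k + 1) : ℝ) ^ p * (2 ^ k * (2 * (2 * p * Real.exp 1 * (k + 1)) ^ p)) =
        2 * 2 ^ k * ((2 * p / (k + 1)) * (2 * p * Real.exp 1 * (k + 1))) ^ p := by
      rw [mul_pow (2 * p / (k + 1) : ℝ) (2 * p * Real.exp 1 * (k + 1)) p]
      generalize (2 * p / (k + 1) : ℝ) ^ p = A
      generalize (2 * p * Real.exp 1 * (k + 1) : ℝ) ^ p = B
      ring
    rw [e2]
    have e3 : (2 * p / (k + 1) : ℝ) * (2 * p * Real.exp 1 * (k + 1)) =
        (2 * p) ^ 2 * Real.exp 1 := by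
      field_simp
    rw [e3, mul_pow]
    ring
  rw [h6] at h4
  exact le_of_mul_le_mul_left h4 h5

end Pool.Agent.R734.CK
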