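import Pool.Agent.R734.CK.Sol

/-!
# Counting homogeneous patterns
-/

set_option autoImplicit false

namespace Pool.Agent.R734.CK

open Finset

/-- the sign of a comparison -/
noncomputable def ss {α : Type} [LinearOrder α] (u v : α) : ℝ := if v < u then -1 else 1

open Classical in
/-- the patterns of `d` orders of `k` vertices for which all pairs have the product `c` -/
noncomputable def T (d k : ℕ) (c : ℝ) : Finset (Fin d → Equiv.Perm (Fin k)) :=
  univ.filter (fun ρ => ∀ i j, i < j → ∏ l, ss (ρ l i) (ρ l j) = c)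

/-- removing the last vertex -/
theorem exists_remove {k : ℕ} (ρ : Equiv.Perm (Fin (k + 1))) : ∃ τ : Equiv.Perm (Fin k),
    ∀ i : Fin k, ρ i.castSucc = (ρ (Fin.last k)).succAbove (τ i) := by
  have h : ∀ i : Fin k, ∃ y, (ρ (Fin.last k)).succAbove y = ρ i.castSucc := by
    intro i
    apply Fin.exists_succAbove_eq
    intro h
    have := ρ.injective h
    exact absurd this (Fin.castSucc_lt_last i).ne
  choose t ht using h
  have hinj : Function.Injective t := by
    intro i j hij
    have h1 : ρ i.castSucc = ρ j.castSucc := by rw [← ht i, ← ht j, hij]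
    exact Fin.castSucc_injective _ (ρ.injective h1)
  refine ⟨Equiv.ofBijective t (Finite.injective_iff_bijective.1 hinj), fun i => ?_⟩
  rw [Equiv.ofBijective_apply]
  exact (ht i).symm

theorem T_succ (d k : ℕ) (c : ℝ) : (T d (k + 1) c).card ≤ ∑ τ ∈ T d k c, (Sol τ c).card := by
  classical
  rw [← card_sigma]
  choose rem hrem using fun (ρ : Equiv.Perm (Fin (k + 1))) => exists_remove ρ
  let Θ : (Fin d → Equiv.Perm (Fin (k + 1))) →
      (Σ _ : (Fin d → Equiv.Perm (Fin k)), (Fin d → Fin (k + 1))) :=
    fun ρ => ⟨fun l => rem (ρ l), fun l => ρ l (Fin.last k)⟩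
  apply card_le_card_of_injOn Θ
  · intro ρ hρ
    have hρ' := (mem_filter.1 (mem_coe.1 hρ)).2
    rw [mem_coe, mem_sigma]
    refine ⟨mem_filter.2 ⟨mem_univ _, ?_⟩, mem_filter.2 ⟨mem_univ _, ?_⟩⟩
    · intro i j hij
      rw [← hρ' i.castSucc j.castSucc (by simpa using hij)]
      apply prod_congr rfl
      intro l _
      unfold ss
      rw [hrem (ρ l) i, hrem (ρ l) j]
      simp only [Fin.succAbove_lt_succAbove_iff]
      rfl
    · intro i
      rw [← hρ' i.castSucc (Fin.last k) (Fin.castSucc_lt_last i)]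
      apply prod_congr rfl
      intro l _
      unfold ss ep
      rw [hrem (ρ l) i]
      simp only [Fin.lt_succAbove_iff_le_castSucc, Fin.le_def, Fin.val_castSucc]
      rfl
  · intro ρ _ ρ' _ h
    simp only [Θ, Sigma.mk.injEq, heq_eq_eq] at h
    obtain ⟨h1, h2⟩ := h
    funext l
    ext x
    have e1 := congrFun h1 l
    have e2 := congrFun h2 l
    refine congrArg Fin.val ?_
    refine Fin.lastCases ?_ (fun i => ?_) x
    · exact e2
    · rw [hrem (ρ l) i, hrem (ρ' l) i, e1, e2]

theorem card_T_le (d k : ℕ) (c : ℝ) : (T d k c).card ≤ k.factorial ^ d := by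
  classical
  refine (card_le_univ _).trans ?_
  rw [Fintype.card_fun, Fintype.card_perm, Fintype.card_fin, Fintype.card_fin]

/-- decay -/
theorem T_decay {p : ℕ} (hp : 1 ≤ p) (c : ℝ) (hc : c = 1 ∨ c = -1) (j : ℕ) (r : ℝ)
    (hr : 4 * p * Real.exp 1 ≤ r * (j + 1)) (t : ℕ) :
    ((T (2 * p) (j + t) c).card : ℝ) ≤ ((j + t).factorial : ℝ) ^ (2 * p) * r ^ (p * t) := by
  have hr0 : 0 ≤ r := by
    by_contra hcon
    push Not at hcon
    have : r * ((j : ℝ) + 1) ≤ 0 := mul_nonpos_of_nonpos_of_nonneg hcon.le (by positivity)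
    have h2 : 0 < 4 * (p : ℝ) * Real.exp 1 := by
      have : (0 : ℝ) < p := by exact_mod_cast hp
      positivity
    linarith
  induction t with
  | zero =>
    simp only [add_zero, mul_zero, pow_zero, mul_one]
    exact_mod_cast card_T_le (2 * p) j c
  | succ t ih =>
    set k := j + t with hk
    have h1 : ((T (2 * p) (k + 1) c).card : ℝ) ≤
        ∑ τ ∈ T (2 * p) k c, ((Sol τ c).card : ℝ) := by
      exact_mod_cast T_succ (2 * p) k c
    have hkj : (j : ℝ) + 1 ≤ k + 1 := by
      have : (j : ℝ) ≤ k := by rw [hk]; push_cast; linarith [Nat.cast_nonneg (α := ℝ) t]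
      linarith
    have h2 : ∀ τ ∈ T (2 * p) k c, ((Sol τ c).card : ℝ) ≤ ((k : ℝ) + 1) ^ (2 * p) * r ^ p := by
      intro τ _
      have e1 := sol_le (d := 2 * p) (by omega) τ c hc
      have e2 := e1.trans (moment k p hp)
      have e3 : ((Sol τ c).card : ℝ) ≤ 2 * (2 * p * Real.exp 1 * (k + 1)) ^ p :=
        le_of_mul_le_mul_left e2 (by positivity)
      have e4 : (2 : ℝ) * (2 * p * Real.exp 1 * (k + 1)) ^ p ≤
          (4 * p * Real.exp 1 * (k + 1)) ^ p := by
        have : (4 * p * Real.exp 1 * (k + 1) : ℝ) ^ p =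
            2 ^ p * (2 * p * Real.exp 1 * (k + 1)) ^ p := by
          rw [← mul_pow]
          ring_nf
        rw [this]
        have h2p : (2 : ℝ) ≤ 2 ^ p := by
          calc (2 : ℝ) = 2 ^ 1 := by norm_num
            _ ≤ 2 ^ p := pow_le_pow_right₀ (by norm_num) hp
        exact mul_le_mul_of_nonneg_right h2p (by positivity)
      have e5 : (4 * p * Real.exp 1 * (k + 1) : ℝ) ^ p ≤ ((k : ℝ) + 1) ^ (2 * p) * r ^ p := by
        rw [pow_mul, ← mul_pow]
        apply pow_le_pow_left₀ (by positivity)
        have : 4 * p * Real.exp 1 ≤ r * (k + 1) :=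
          hr.trans (mul_le_mul_of_nonneg_left hkj hr0)
        nlinarith [this, (by positivity : (0 : ℝ) ≤ (k : ℝ) + 1)]
      exact e3.trans (e4.trans e5)
    have h3 : ((T (2 * p) (k + 1) c).card : ℝ) ≤
        (T (2 * p) k c).card * (((k : ℝ) + 1) ^ (2 * p) * r ^ p) := by
      refine h1.trans ((sum_le_sum h2).trans ?_)
      rw [sum_const, nsmul_eq_mul]
    calc ((T (2 * p) (j + (t + 1)) c).card : ℝ) = ((T (2 * p) (k + 1) c).card : ℝ) := rfl
      _ ≤ (T (2 * p) k c).card * (((k : ℝ) + 1) ^ (2 * p) * r ^ p) := h3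
      _ ≤ ((k.factorial : ℝ) ^ (2 * p) * r ^ (p * t)) * (((k : ℝ) + 1) ^ (2 * p) * r ^ p) :=
          mul_le_mul_of_nonneg_right ih (by positivity)
      _ = ((j + (t + 1)).factorial : ℝ) ^ (2 * p) * r ^ (p * (t + 1)) := by
          rw [show j + (t + 1) = k + 1 by omega, Nat.factorial_succ]
          push_cast
          rw [mul_pow, mul_add, mul_one, pow_add]
          ring

/-- the relative order of an injective family -/
theorem exists_rank {k : ℕ} {α : Type} [LinearOrder α] (h : Fin k → α) (hh : Function.Injective h) :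
    ∃ ρ : Equiv.Perm (Fin k), ∀ i j, h i < h j ↔ ρ i < ρ j := by
  classical
  have hc : (univ.image h).card = k := by
    rw [card_image_of_injective _ hh, card_univ, Fintype.card_fin]
  let e := (univ.image h).orderIsoOfFin hc
  let t : Fin k → Fin k := fun i => e.symm ⟨h i, mem_image_of_mem _ (mem_univ i)⟩
  have hlt : ∀ i j, h i < h j ↔ t i < t j := by
    intro i j
    simp only [t]
    rw [e.symm.lt_iff_lt, Subtype.mk_lt_mk]
  have hinj : Function.Injective t := by
    intro i j hij
    apply hh
    rcases lt_trichotomy (h i) (h j) with h1 | h1 | h1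
    · exact absurd hij ((hlt i j).1 h1).ne
    · exact h1
    · exact absurd hij ((hlt j i).1 h1).ne'
  exact ⟨Equiv.ofBijective t (Finite.injective_iff_bijective.1 hinj), hlt⟩

open Classical in
/-- **Symmetrization.** -/
theorem symm_count {d k N : ℕ} (e : Fin k ↪ Fin N) (c : ℝ) :
    (univ.filter (fun ω : Fin d → Equiv.Perm (Fin N) =>
      ∀ i j : Fin k, i < j → ∏ l, ss (ω l (e i)) (ω l (e j)) = c)).card * k.factorial ^ d =
      N.factorial ^ d * (T d k c).card := by
  let Q : (Fin d → Equiv.Perm (Fin N)) → (Fin d → Equiv.Perm (Fin k)) → Prop := fun ω τ =>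
    ∀ i j : Fin k, i < j → ∏ l, ss (ω l (e (τ l i))) (ω l (e (τ l j))) = c
  have hA : ∀ τ : Fin d → Equiv.Perm (Fin k), (univ.filter (fun ω => Q ω τ)).card =
      (univ.filter (fun ω : Fin d → Equiv.Perm (Fin N) =>
        ∀ i j : Fin k, i < j → ∏ l, ss (ω l (e i)) (ω l (e j)) = c)).card := by
    intro τ
    let s : Fin d → Equiv.Perm (Fin N) := fun l => (τ l).viaEmbedding e
    apply card_bij' (fun ω _ => fun l => ω l * s l) (fun ω _ => fun l => ω l * (s l)⁻¹)
    · intro ω hω
      have h := (mem_filter.1 hω).2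
      refine mem_filter.2 ⟨mem_univ _, fun i j hij => ?_⟩
      rw [← h i j hij]
      apply prod_congr rfl
      intro l _
      simp only [s, Equiv.Perm.mul_apply, Equiv.Perm.viaEmbedding_apply]
    · intro ω hω
      have h := (mem_filter.1 hω).2
      refine mem_filter.2 ⟨mem_univ _, fun i j hij => ?_⟩
      rw [← h i j hij]
      apply prod_congr rfl
      intro l _
      have e1 : ∀ i, (s l)⁻¹ (e (τ l i)) = e i := by
        intro i
        rw [Equiv.Perm.inv_eq_iff_eq]
        simp only [s, Equiv.Perm.viaEmbedding_apply]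
      simp only [Equiv.Perm.mul_apply, e1]
    · intro ω _
      funext l
      simp
    · intro ω _
      funext l
      simp
  have hB : ∀ ω : Fin d → Equiv.Perm (Fin N), (univ.filter (fun τ => Q ω τ)).card =
      (T d k c).card := by
    intro ω
    choose ρ hρ using fun l => exists_rank (fun i => ω l (e i))
      (fun i j hij => e.injective ((ω l).injective hij))
    have hss : ∀ l i j, ss (ω l (e i)) (ω l (e j)) = ss (ρ l i) (ρ l j) := by
      intro l i j
      unfold ss
      simp only [hρ l j i]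
    apply card_bij' (fun τ _ => fun l => ρ l * τ l) (fun τ _ => fun l => (ρ l)⁻¹ * τ l)
    · intro τ hτ
      have h := (mem_filter.1 hτ).2
      refine mem_filter.2 ⟨mem_univ _, fun i j hij => ?_⟩
      rw [← h i j hij]
      apply prod_congr rfl
      intro l _
      rw [hss]
      rfl
    · intro τ hτ
      have h := (mem_filter.1 hτ).2
      refine mem_filter.2 ⟨mem_univ _, fun i j hij => ?_⟩
      rw [← h i j hij]
      apply prod_congr rfl
      intro l _
      rw [hss]
      simp
    · intro ω _
      funext l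
      simp
    · intro ω _
      funext l
      simp
  have h1 : ∑ τ : Fin d → Equiv.Perm (Fin k), (univ.filter (fun ω => Q ω τ)).card =
      ∑ ω : Fin d → Equiv.Perm (Fin N), (univ.filter (fun τ => Q ω τ)).card := by
    simp only [card_filter]
    exact sum_comm
  simp only [hA, hB] at h1
  rw [sum_const, sum_const, card_univ, card_univ, Fintype.card_fun, Fintype.card_fun,
    Fintype.card_perm, Fintype.card_perm, Fintype.card_fin, Fintype.card_fin, Fintype.card_fin,
    smul_eq_mul, smul_eq_mul] at h1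
  rw [mul_comm]
  exact h1

end Pool.Agent.R734.CK
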