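import Pool.Agent.R734.CK.Moments

/-!
# Counting the ways to insert a new vertex
-/

set_option autoImplicit false

namespace Pool.Agent.R734.CK

open Finset

/-- the sign of the comparison of a new element at position `m` with an old one at position `u` -/
noncomputable def ep {k : ℕ} (m : Fin (k + 1)) (u : Fin k) : ℝ := if m.val ≤ u.val then -1 else 1

open Classical in
/-- the insertions for which all products of signs are `c` -/
noncomputable def Sol {k d : ℕ} (τ : Fin d → Equiv.Perm (Fin k)) (c : ℝ) :
    Finset (Fin d → Fin (k + 1)) :=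
  univ.filter (fun m => ∀ i, ∏ l, ep (m l) (τ l i) = c)

theorem ep_sq {k : ℕ} (m : Fin (k + 1)) (u : Fin k) : ep m u = 1 ∨ ep m u = -1 := by
  unfold ep
  split_ifs
  · exact Or.inr rfl
  · exact Or.inl rfl

theorem prod_sign {ι : Type} (s : Finset ι) (f : ι → ℝ) (h : ∀ i ∈ s, f i = 1 ∨ f i = -1) :
    ∏ i ∈ s, f i = 1 ∨ ∏ i ∈ s, f i = -1 := by
  classical
  induction s using Finset.induction_on with
  | empty => simp
  | insert a s ha ih =>
    rw [prod_insert ha]
    rcases ih (fun i hi => h i (mem_insert_of_mem hi)) with h1 | h1 <;>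
      rcases h a (mem_insert_self _ _) with h2 | h2 <;> rw [h1, h2] <;> simp

theorem relabel {k : ℕ} (τ : Equiv.Perm (Fin k)) (W : Fin k → Bool) :
    ∑ m : Fin (k + 1), ∏ i : Fin k, (if W i = true then ep m (τ i) else 1) =
      F k (fun u => W (τ.symm u)) := by
  unfold F
  apply sum_congr rfl
  intro m _
  rw [← Equiv.prod_comp τ.symm]
  apply prod_congr rfl
  intro u _
  rw [Equiv.apply_symm_apply]
  unfold ep
  by_cases h1 : W (τ.symm u) = true <;> by_cases h2 : m.val ≤ u.val <;> simp [h1, h2]

theorem prod_le_sum_pow {d : ℕ} (hd : 1 ≤ d) (f : Fin d → ℝ) :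
    ∏ l, |f l| ≤ ∑ l, (1 / d : ℝ) * |f l| ^ d := by
  have hd' : (0 : ℝ) < d := by exact_mod_cast hd
  have h := Real.geom_mean_le_arith_mean_weighted univ (fun _ : Fin d => (1 / d : ℝ))
    (fun l => |f l| ^ d) (fun _ _ => by positivity) (by
      rw [sum_const, card_univ, Fintype.card_fin, nsmul_eq_mul]
      field_simp) (fun _ _ => by positivity)
  refine le_trans (le_of_eq ?_) h
  apply prod_congr rfl
  intro l _
  rw [one_div, Real.pow_rpow_inv_natCast (abs_nonneg _) (by omega)]

theorem sol_le {k d : ℕ} (hd : 1 ≤ d) (τ : Fin d → Equiv.Perm (Fin k)) (c : ℝ)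
    (hc : c = 1 ∨ c = -1) : (2 : ℝ) ^ k * (Sol τ c).card ≤ ∑ W : Fin k → Bool, |F k W| ^ d := by
  classical
  have hd' : (0 : ℝ) < d := by exact_mod_cast hd
  -- the indicator as a product
  have h1 : ∀ m : Fin d → Fin (k + 1), (if m ∈ Sol τ c then (2 : ℝ) ^ k else 0) =
      ∏ i : Fin k, (1 + c * ∏ l, ep (m l) (τ l i)) := by
    intro m
    by_cases hm : m ∈ Sol τ c
    · rw [if_pos hm]
      have hm' := (mem_filter.1 hm).2
      have : ∀ i : Fin k, 1 + c * ∏ l, ep (m l) (τ l i) = 2 := by
        intro i
        rw [hm' i]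
        rcases hc with h | h <;> rw [h] <;> norm_num
      simp only [this]
      rw [prod_const, card_univ, Fintype.card_fin]
    · rw [if_neg hm]
      have hex : ∃ i, ∏ l, ep (m l) (τ l i) ≠ c := by
        by_contra hcon
        push Not at hcon
        exact hm (mem_filter.2 ⟨mem_univ _, hcon⟩)
      obtain ⟨i, hi⟩ := hex
      symm
      apply prod_eq_zero (mem_univ i)
      rcases prod_sign univ (fun l => ep (m l) (τ l i)) (fun l _ => ep_sq _ _) with h | h <;>
        rcases hc with h' | h' <;> rw [h'] at hi ⊢ <;> rw [h] at hi ⊢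
      · exact absurd rfl hi
      · norm_num
      · norm_num
      · exact absurd rfl hi
  have h2 : (2 : ℝ) ^ k * (Sol τ c).card =
      ∑ m : Fin d → Fin (k + 1), (if m ∈ Sol τ c then (2 : ℝ) ^ k else 0) := by
    rw [← sum_filter, sum_const, nsmul_eq_mul, mul_comm]
    congr 3
    ext m
    simp
  rw [h2]
  simp only [h1]
  -- expansion
  have h3 : ∀ m : Fin d → Fin (k + 1), ∏ i : Fin k, (1 + c * ∏ l, ep (m l) (τ l i)) =
      ∑ W : Fin k → Bool, (∏ i : Fin k, (if W i = true then c else 1)) *
        ∏ l, ∏ i : Fin k, (if W i = true then ep (m l) (τ l i) else 1) := by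
    intro m
    have e1 : ∀ i : Fin k, 1 + c * ∏ l, ep (m l) (τ l i) =
        ∑ b : Bool, (if b = true then c * ∏ l, ep (m l) (τ l i) else 1) := by
      intro i
      rw [Fintype.sum_bool]
      simp [add_comm]
    simp only [e1]
    rw [prod_univ_sum, Fintype.piFinset_univ]
    apply sum_congr rfl
    intro W _
    rw [prod_comm, ← prod_mul_distrib]
    apply prod_congr rfl
    intro i _
    by_cases h : W i = true
    · simp [h]
    · simp [h]
  simp only [h3]
  rw [sum_comm]
  have h4 : ∀ W : Fin k → Bool, ∑ m : Fin d → Fin (k + 1),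
      (∏ i : Fin k, (if W i = true then c else 1)) *
        ∏ l, ∏ i : Fin k, (if W i = true then ep (m l) (τ l i) else 1) =
      (∏ i : Fin k, (if W i = true then c else 1)) * ∏ l, F k (fun u => W ((τ l).symm u)) := by
    intro W
    rw [← mul_sum]
    congr 1
    simp only [← relabel]
    rw [prod_univ_sum, Fintype.piFinset_univ]
  simp only [h4]
  have h5 : ∀ W : Fin k → Bool, (∏ i : Fin k, (if W i = true then c else 1)) *
      ∏ l, F k (fun u => W ((τ l).symm u)) ≤
      ∑ l, (1 / d : ℝ) * |F k (fun u => W ((τ l).symm u))| ^ d := by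
    intro W
    refine le_trans (le_abs_self _) ?_
    rw [abs_mul, abs_prod univ (fun l => F k (fun u => W ((τ l).symm u)))]
    have e1 : |∏ i : Fin k, (if W i = true then c else 1)| = 1 := by
      have : ∏ i : Fin k, (if W i = true then c else 1) = 1 ∨
          ∏ i : Fin k, (if W i = true then c else 1) = -1 := by
        apply prod_sign
        intro i _
        split_ifs
        · exact hc
        · exact Or.inl rfl
      rcases this with h | h <;> rw [h] <;> simp
    rw [e1, one_mul]
    exact prod_le_sum_pow hd (fun l => F k (fun u => W ((τ l).symm u)))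
  refine (sum_le_sum (fun W _ => h5 W)).trans ?_
  rw [sum_comm]
  have h6 : ∀ l : Fin d, ∑ W : Fin k → Bool, (1 / d : ℝ) * |F k (fun u => W ((τ l).symm u))| ^ d =
      (1 / d : ℝ) * ∑ W : Fin k → Bool, |F k W| ^ d := by
    intro l
    rw [← mul_sum]
    congr 1
    exact (Equiv.arrowCongr (τ l) (Equiv.refl Bool)).sum_comp (fun W => |F k W| ^ d)
  simp only [h6]
  rw [sum_const, card_univ, Fintype.card_fin, nsmul_eq_mul]
  apply le_of_eq
  field_simp

end Pool.Agent.R734.CK
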